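import Pool.Agent.Y991.LF.Top2
import Pool.Agent.Results.MP_5d3ebc_al.WLPFails

set_option autoImplicit false

/-!
# Joins of spheres (algebra)
-/

universe u

namespace Pool.Agent.Y991.LF

open Pool.Agent.Results.MP_5d3ebc_al.SLPFails
open Pool.Agent.Results.MP_5d3ebc_al.WLPFails (lift_gen mk_mem_deg deg_mul one_mem_deg)

section General

variable (K : Type u) [Field K] {d n : ℕ}

/-- The class of a variable. -/
noncomputable def gx (Δ : Finset (Finset (Fin n))) (c : Fin n → Fin d) (v : Fin n) : A K Δ c :=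
  Ideal.Quotient.mk (J K Δ c) (MvPolynomial.X v)

lemma gx_theta (Δ : Finset (Finset (Fin n))) (c : Fin n → Fin d) (j : Fin d) :
    ∑ v with c v = j, gx K Δ c v = 0 := by
  have h : Ideal.Quotient.mk (J K Δ c) (theta K c j) = 0 := by
    rw [Ideal.Quotient.eq_zero_iff_mem]
    exact Ideal.mem_sup_right (Ideal.subset_span ⟨j, rfl⟩)
  rw [theta, map_sum] at h
  exact h

lemma gx_nonface (Δ : Finset (Finset (Fin n))) (c : Fin n → Fin d) (s : Finset (Fin n))
    (hs : s ∉ Δ) : ∏ i ∈ s, gx K Δ c i = 0 := by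
  have h : Ideal.Quotient.mk (J K Δ c) (∏ i ∈ s, MvPolynomial.X i) = 0 := by
    rw [Ideal.Quotient.eq_zero_iff_mem]
    exact Ideal.mem_sup_left (Ideal.subset_span ⟨s, hs, rfl⟩)
  rw [map_prod] at h
  exact h

lemma gx_mem (Δ : Finset (Finset (Fin n))) (c : Fin n → Fin d) (v : Fin n) :
    gx K Δ c v ∈ deg K Δ c 1 :=
  mk_mem_deg K Δ c 1 _ (MvPolynomial.isHomogeneous_X _ _)

/-- Linear forms are combinations of the variables. -/
lemma deg_one_gen (Δ : Finset (Finset (Fin n))) (c : Fin n → Fin d) (l : A K Δ c)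
    (hl : l ∈ deg K Δ c 1) : ∃ a : Fin n → K, l = ∑ v, a v • gx K Δ c v := by
  obtain ⟨p, hp, rfl⟩ := hl
  rw [SetLike.mem_coe, MvPolynomial.homogeneousSubmodule_one_eq_span_X] at hp
  obtain ⟨a, ha⟩ := (Submodule.mem_span_range_iff_exists_fun K).mp hp
  refine ⟨a, ?_⟩
  rw [← ha, map_sum]
  apply Finset.sum_congr rfl
  intro v _
  rw [map_smul]
  rfl

/-- Induction for the elements of a component. -/
lemma deg_induction (Δ : Finset (Finset (Fin n))) (c : Fin n → Fin d)
    (P : ℕ → A K Δ c → Prop) (h0 : ∀ z ∈ deg K Δ c 0, P 0 z)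
    (hs : ∀ i v z, z ∈ deg K Δ c i → P i z → P (i + 1) (gx K Δ c v * z))
    (ha : ∀ i z z', P i z → P i z' → P i (z + z')) (hm : ∀ i (a : K) z, P i z → P i (a • z))
    (hz : ∀ i, P i 0) : ∀ i, ∀ z ∈ deg K Δ c i, P i z := by
  intro i
  induction i with
  | zero => exact h0
  | succ i ih =>
    rintro z ⟨p, hp, rfl⟩
    rw [SetLike.mem_coe, ← MvPolynomial.homogeneousSubmodule_one_pow, pow_succ'] at hp
    refine Submodule.mul_induction_on hp ?_ ?_
    · intro m hm' q hq
      rw [MvPolynomial.homogeneousSubmodule_one_pow] at hq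
      have h1 := ih _ (mk_mem_deg K Δ c i q hq)
      obtain ⟨a, h2⟩ := deg_one_gen K Δ c _ (mk_mem_deg K Δ c 1 m hm')
      have h3 : (Ideal.Quotient.mkₐ K (J K Δ c)).toLinearMap (m * q) =
          ∑ v, a v • (gx K Δ c v * Ideal.Quotient.mk (J K Δ c) q) := by
        have : (Ideal.Quotient.mkₐ K (J K Δ c)).toLinearMap (m * q) =
            Ideal.Quotient.mk (J K Δ c) m * Ideal.Quotient.mk (J K Δ c) q :=
          map_mul (Ideal.Quotient.mk (J K Δ c)) m q
        rw [this, h2, Finset.sum_mul]
        apply Finset.sum_congr rfl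
        intro v _
        rw [smul_mul_assoc]
      rw [h3]
      have h4 : ∀ t : Finset (Fin n), P (i + 1)
          (∑ v ∈ t, a v • (gx K Δ c v * Ideal.Quotient.mk (J K Δ c) q)) := by
        intro t
        induction t using Finset.induction_on with
        | empty => rw [Finset.sum_empty]; exact hz _
        | insert b t hb ih2 =>
          rw [Finset.sum_insert hb]
          exact ha _ _ _ (hm _ _ _ (hs _ _ _ (mk_mem_deg K Δ c i q hq) h1)) ih2
      exact h4 _
    · intro m q h1 h2
      rw [map_add]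
      exact ha _ _ _ h1 h2

/-- Two homomorphisms which agree on the variables are equal. -/
lemma hom_ext_gx {Δ : Finset (Finset (Fin n))} {c : Fin n → Fin d} {B : Type u} [CommRing B]
    [Algebra K B] (φ ψ : A K Δ c →ₐ[K] B) (h : ∀ v, φ (gx K Δ c v) = ψ (gx K Δ c v)) :
    φ = ψ := by
  apply Ideal.Quotient.algHom_ext
  apply MvPolynomial.algHom_ext
  intro v
  exact h v

/-- A homomorphism which maps the variables to linear forms respects the degrees. -/
lemma hom_deg {d' n' : ℕ} {Δ : Finset (Finset (Fin n))} {c : Fin n → Fin d}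
    {Δ' : Finset (Finset (Fin n'))} {c' : Fin n' → Fin d'} (φ : A K Δ c →ₐ[K] A K Δ' c')
    (h : ∀ v, φ (gx K Δ c v) ∈ deg K Δ' c' 1) :
    ∀ i, ∀ z ∈ deg K Δ c i, φ z ∈ deg K Δ' c' i := by
  apply deg_induction K Δ c (fun i z => φ z ∈ deg K Δ' c' i)
  · rintro z ⟨p, hp, rfl⟩
    rw [SetLike.mem_coe, MvPolynomial.mem_homogeneousSubmodule] at hp
    have h1 := MvPolynomial.totalDegree_eq_zero_iff_eq_C.1 (Nat.le_zero.1 hp.totalDegree_le)
    rw [h1]
    have : (Ideal.Quotient.mkₐ K (J K Δ c)).toLinearMap (MvPolynomial.C (MvPolynomial.coeff 0 p)) =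
        algebraMap K (A K Δ c) (MvPolynomial.coeff 0 p) := rfl
    rw [this, φ.commutes, Algebra.algebraMap_eq_smul_one]
    exact Submodule.smul_mem _ _ (one_mem_deg K Δ' c')
  · intro i v z _ hz
    rw [map_mul, add_comm]
    exact deg_mul K Δ' c' 1 i _ _ (h v) hz
  · intro i z z' h1 h2
    rw [map_add]
    exact Submodule.add_mem _ h1 h2
  · intro i a z h1
    rw [map_smul]
    exact Submodule.smul_mem _ _ h1
  · intro i
    rw [map_zero]
    exact Submodule.zero_mem _

end General

/-! ### The algebra of a join -/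

section Join

variable {d e n m : ℕ}

/-- The colouring of a join. -/
def jc (c : Fin n → Fin d) (c' : Fin m → Fin e) : Fin (n + m) → Fin (d + e) :=
  Fin.addCases (fun v => Fin.castAdd e (c v)) (fun w => Fin.natAdd d (c' w))

@[simp] lemma jc_left (c : Fin n → Fin d) (c' : Fin m → Fin e) (v : Fin n) :
    jc c c' (Fin.castAdd m v) = Fin.castAdd e (c v) := by simp [jc]

@[simp] lemma jc_right (c : Fin n → Fin d) (c' : Fin m → Fin e) (w : Fin m) :
    jc c c' (Fin.natAdd n w) = Fin.natAdd d (c' w) := by simp [jc]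

lemma proper_jc {Δ : Finset (Finset (Fin n))} {Γ : Finset (Finset (Fin m))} {c : Fin n → Fin d}
    {c' : Fin m → Fin e} (h1 : IsProperColoring Δ c) (h2 : IsProperColoring Γ c') :
    IsProperColoring (join Δ Γ) (jc c c') := by
  intro a b
  refine Fin.addCases (fun v => ?_) (fun v => ?_) a <;>
    refine Fin.addCases (fun w => ?_) (fun w => ?_) b
  · intro hab hf
    rw [jc_left, jc_left]
    intro h
    rw [Fin.castAdd_inj] at h
    rw [mem_join] at hf
    refine h1 v w (fun e => hab (by rw [e])) ?_ h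
    have : pl {Fin.castAdd m v, Fin.castAdd m w} = {v, w} := by
      ext i
      rw [mem_pl]
      simp
    rw [← this]
    exact hf.1
  · intro _ _
    rw [jc_left, jc_right]
    exact cast_ne_nat _ _
  · intro _ _
    rw [jc_left, jc_right]
    exact (cast_ne_nat _ _).symm
  · intro hab hf
    rw [jc_right, jc_right]
    intro h
    rw [Fin.natAdd_inj] at h
    rw [mem_join] at hf
    refine h2 v w (fun e => hab (by rw [e])) ?_ h
    have : pr {Fin.natAdd n v, Fin.natAdd n w} = {v, w} := by
      ext i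
      rw [mem_pr]
      simp
    rw [← this]
    exact hf.2

variable {B : Type u} [CommRing B]

lemma prod_split (s : Finset (Fin (n + m))) (f : Fin (n + m) → B) :
    ∏ i ∈ s, f i = (∏ v ∈ pl s, f (Fin.castAdd m v)) * ∏ w ∈ pr s, f (Fin.natAdd n w) := by
  classical
  rw [pl, pr, Finset.prod_filter, Finset.prod_filter]
  conv_lhs => rw [← Finset.filter_univ_mem s, Finset.prod_filter, Fin.prod_univ_add]

lemma sum_left (c : Fin n → Fin d) (c' : Fin m → Fin e) (j : Fin d) (f : Fin (n + m) → B) :
    ∑ v with jc c c' v = Fin.castAdd e j, f v = ∑ v with c v = j, f (Fin.castAdd m v) := by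
  rw [Finset.sum_filter, Fin.sum_univ_add, Finset.sum_filter]
  have h : ∀ w : Fin m, (if jc c c' (Fin.natAdd n w) = Fin.castAdd e j then
      f (Fin.natAdd n w) else 0) = 0 := by
    intro w
    rw [jc_right, if_neg (cast_ne_nat _ _).symm]
  rw [Finset.sum_congr rfl (fun w _ => h w), Finset.sum_const_zero, add_zero]
  apply Finset.sum_congr rfl
  intro v _
  rw [jc_left]
  simp only [Fin.castAdd_inj]

lemma sum_right (c : Fin n → Fin d) (c' : Fin m → Fin e) (j : Fin e) (f : Fin (n + m) → B) :
    ∑ v with jc c c' v = Fin.natAdd d j, f v = ∑ v with c' v = j, f (Fin.natAdd n v) := by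
  rw [Finset.sum_filter, Fin.sum_univ_add, Finset.sum_filter]
  have h : ∀ w : Fin n, (if jc c c' (Fin.castAdd m w) = Fin.natAdd d j then
      f (Fin.castAdd m w) else 0) = 0 := by
    intro w
    rw [jc_left, if_neg (cast_ne_nat _ _)]
  rw [Finset.sum_congr rfl (fun w _ => h w), Finset.sum_const_zero, zero_add]
  apply Finset.sum_congr rfl
  intro v _
  rw [jc_right]
  simp only [Fin.natAdd_inj]

variable (K : Type u) [Field K]

lemma exists_left (Δ : Finset (Finset (Fin n))) (Γ : Finset (Finset (Fin m))) (c : Fin n → Fin d)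
    (c' : Fin m → Fin e) : ∃ ι : A K Δ c →ₐ[K] A K (join Δ Γ) (jc c c'),
      ∀ v, ι (gx K Δ c v) = gx K (join Δ Γ) (jc c c') (Fin.castAdd m v) := by
  classical
  obtain ⟨ι, hι⟩ := lift_gen K Δ c (B := A K (join Δ Γ) (jc c c'))
    (fun v => gx K (join Δ Γ) (jc c c') (Fin.castAdd m v)) (by
      intro j
      rw [← sum_left c c' j (gx K (join Δ Γ) (jc c c'))]
      exact gx_theta K _ _ _) (by
      intro s hs
      have h1 : s.map (Fin.castAddEmb m) ∉ join Δ Γ := by
        intro h
        rw [mem_join] at h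
        apply hs
        have : pl (s.map (Fin.castAddEmb m)) = s := by
          ext v
          rw [mem_pl]
          simp
        rw [← this]
        exact h.1
      have h2 := gx_nonface K (join Δ Γ) (jc c c') _ h1
      rw [Finset.prod_map] at h2
      exact h2)
  exact ⟨ι, fun v => by rw [gx, hι, MvPolynomial.aeval_X]⟩

lemma exists_right (Δ : Finset (Finset (Fin n))) (Γ : Finset (Finset (Fin m))) (c : Fin n → Fin d)
    (c' : Fin m → Fin e) : ∃ ι : A K Γ c' →ₐ[K] A K (join Δ Γ) (jc c c'),
      ∀ v, ι (gx K Γ c' v) = gx K (join Δ Γ) (jc c c') (Fin.natAdd n v) := by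
  classical
  obtain ⟨ι, hι⟩ := lift_gen K Γ c' (B := A K (join Δ Γ) (jc c c'))
    (fun v => gx K (join Δ Γ) (jc c c') (Fin.natAdd n v)) (by
      intro j
      rw [← sum_right c c' j (gx K (join Δ Γ) (jc c c'))]
      exact gx_theta K _ _ _) (by
      intro s hs
      have h1 : s.map (Fin.natAddEmb n) ∉ join Δ Γ := by
        intro h
        rw [mem_join] at h
        apply hs
        have : pr (s.map (Fin.natAddEmb n)) = s := by
          ext v
          rw [mem_pr]
          simp
        rw [← this]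
        exact h.2
      have h2 := gx_nonface K (join Δ Γ) (jc c c') _ h1
      rw [Finset.prod_map] at h2
      exact h2)
  exact ⟨ι, fun v => by rw [gx, hι, MvPolynomial.aeval_X]⟩

/-- Homomorphisms from the algebra of a join. -/
lemma join_lift (Δ : Finset (Finset (Fin n))) (Γ : Finset (Finset (Fin m))) (c : Fin n → Fin d)
    (c' : Fin m → Fin e) [Algebra K B] (α : A K Δ c →ₐ[K] B) (β : A K Γ c' →ₐ[K] B) :
    ∃ φ : A K (join Δ Γ) (jc c c') →ₐ[K] B,
      (∀ v, φ (gx K _ _ (Fin.castAdd m v)) = α (gx K Δ c v)) ∧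
      (∀ v, φ (gx K _ _ (Fin.natAdd n v)) = β (gx K Γ c' v)) := by
  classical
  let f : Fin (n + m) → B :=
    Fin.addCases (fun v => α (gx K Δ c v)) (fun v => β (gx K Γ c' v))
  have f1 : ∀ v, f (Fin.castAdd m v) = α (gx K Δ c v) := fun v => by simp [f]
  have f2 : ∀ v, f (Fin.natAdd n v) = β (gx K Γ c' v) := fun v => by simp [f]
  obtain ⟨φ, hφ⟩ := lift_gen K (join Δ Γ) (jc c c') (B := B) f (by
      intro j
      refine Fin.addCases (fun j => ?_) (fun j => ?_) j
      · rw [sum_left]
        simp only [f1]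
        rw [← map_sum, gx_theta, map_zero]
      · rw [sum_right]
        simp only [f2]
        rw [← map_sum, gx_theta, map_zero]) (by
      intro s hs
      rw [mem_join, not_and_or] at hs
      rw [prod_split]
      simp only [f1, f2]
      rw [← map_prod, ← map_prod]
      rcases hs with hs | hs
      · rw [gx_nonface K Δ c _ hs, map_zero, zero_mul]
      · rw [gx_nonface K Γ c' _ hs, map_zero, mul_zero])
  refine ⟨φ, fun v => ?_, fun v => ?_⟩
  · rw [gx, hφ, MvPolynomial.aeval_X, f1]
  · rw [gx, hφ, MvPolynomial.aeval_X, f2]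

end Join

end Pool.Agent.Y991.LF
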