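import Pool.Agent.Y991.LF.Susp

set_option autoImplicit false
set_option maxRecDepth 20000

/-!
# The three-dimensional sphere and its suspension
-/

universe u

namespace Pool.Agent.Y991.LF

open Pool.Agent.Results.MP_5d3ebc_al.SLPFails
open Pool.Agent.Results.MP_5d3ebc_al.WLPFails (lift_gen mk_mem_deg deg_mul one_mem_deg eps_neg
  abs_inj abs_surj HasWLP)

variable (K : Type u) [Field K]

lemma base_inj : NInj K Δ0 c0 1 2 := by
  intro l hl
  obtain ⟨a, rfl⟩ := deg_one K l hl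
  exact not_inj K a

lemma base_surj : NSurj K Δ0 c0 1 2 := by
  intro l hl
  obtain ⟨a, rfl⟩ := deg_one K l hl
  exact not_surj K a

/-- Two independent elements of degree two. -/
lemma base_two (ℓ : A K Δ0 c0) : ∃ p ∈ deg K Δ0 c0 2, ∀ α : K, p ≠ α • (ℓ * ℓ) := by
  obtain ⟨ρ, hρ⟩ := exists_rho K 0
  set p1 := x K (f0 0 0) * x K (f0 0 1) with hp1
  set p2 := x K (f0 0 1) * x K (f0 0 2) with hp2
  have hd1 : p1 ∈ deg K Δ0 c0 2 := deg_mul K Δ0 c0 1 1 _ _ (x_mem_deg K _) (x_mem_deg K _)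
  have hd2 : p2 ∈ deg K Δ0 c0 2 := deg_mul K Δ0 c0 1 1 _ _ (x_mem_deg K _) (x_mem_deg K _)
  have hx : ∀ i : Fin 3, ρ (x K (f0 0 i)) = ee K (co3 i) := by
    intro i
    rw [hρ, sg_f0, f0_color]
    push_cast
    ring
  have h0 : ρ (x K (f0 0 0)) = e0 K := hx 0
  have h1 : ρ (x K (f0 0 1)) = e1 K := hx 1
  have h2 : ρ (x K (f0 0 2)) = e2 K := hx 2
  by_contra hcon
  push Not at hcon
  obtain ⟨α, hα⟩ := hcon p1 hd1
  obtain ⟨β, hβ⟩ := hcon p2 hd2
  have h3 : β • p1 = α • p2 := by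
    rw [hα, hβ, smul_smul, smul_smul, mul_comm]
  have h4 := congrArg (fun z => top K (ρ z * e0 K)) h3
  have h5 := congrArg (fun z => top K (ρ z * e2 K)) h3
  have g1 : ρ p1 = e0 K * e1 K := by rw [hp1, map_mul, h0, h1]
  have g2 : ρ p2 = e1 K * e2 K := by rw [hp2, map_mul, h1, h2]
  simp only [map_smul, g1, g2] at h4 h5
  have q1 : β • (e0 K * e1 K) * e0 K = 0 := by
    rw [smul_mul_assoc]
    have : e0 K * e1 K * e0 K = e1 K * (e0 K * e0 K) := by ring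
    rw [this, e00, mul_zero, smul_zero]
  have q2 : α • (e1 K * e2 K) * e0 K = α • (e0 K * e1 K * e2 K) := by
    rw [smul_mul_assoc]
    congr 1
    ring
  have q3 : β • (e0 K * e1 K) * e2 K = β • (e0 K * e1 K * e2 K) := by
    rw [smul_mul_assoc]
  have q4 : α • (e1 K * e2 K) * e2 K = 0 := by
    rw [smul_mul_assoc]
    have : e1 K * e2 K * e2 K = e1 K * (e2 K * e2 K) := by ring
    rw [this, e22, mul_zero, smul_zero]
  rw [q1, q2, map_zero, map_smul, top_e, smul_eq_mul, mul_one] at h4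
  rw [q3, q4, map_zero, map_smul, top_e, smul_eq_mul, mul_one] at h5
  rw [← h4, zero_smul] at hα
  rw [hα, map_zero] at g1
  have h6 := congrArg (fun z => top K (z * e2 K)) g1
  simp only [zero_mul, map_zero, top_e] at h6
  exact zero_ne_one h6

/-- Two independent elements of degree one. -/
lemma base_one (ℓ : A K Δ0 c0) : ∃ p ∈ deg K Δ0 c0 1, ∀ α : K, p ≠ α • ℓ := by
  obtain ⟨ρ, hρ⟩ := exists_rho K 0
  have hx : ∀ i : Fin 3, ρ (x K (f0 0 i)) = ee K (co3 i) := by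
    intro i
    rw [hρ, sg_f0, f0_color]
    push_cast
    ring
  have h0 : ρ (x K (f0 0 0)) = e0 K := hx 0
  have h2 : ρ (x K (f0 0 2)) = e2 K := hx 2
  by_contra hcon
  push Not at hcon
  obtain ⟨α, hα⟩ := hcon (x K (f0 0 0)) (x_mem_deg K _)
  obtain ⟨β, hβ⟩ := hcon (x K (f0 0 2)) (x_mem_deg K _)
  have h3 : β • x K (f0 0 0) = α • x K (f0 0 2) := by
    rw [hα, hβ, smul_smul, smul_smul, mul_comm]
  have h4 := congrArg (fun z => top K (ρ z * (e0 K * e1 K))) h3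
  simp only [map_smul, h0, h2] at h4
  have q1 : β • e0 K * (e0 K * e1 K) = 0 := by
    rw [smul_mul_assoc]
    have : e0 K * (e0 K * e1 K) = e1 K * (e0 K * e0 K) := by ring
    rw [this, e00, mul_zero, smul_zero]
  have q2 : α • e2 K * (e0 K * e1 K) = α • (e0 K * e1 K * e2 K) := by
    rw [smul_mul_assoc]
    congr 1
    ring
  rw [q1, q2, map_zero, map_smul, top_e, smul_eq_mul, mul_one] at h4
  rw [← h4, zero_smul] at hα
  rw [hα, map_zero] at h0
  have h6 := congrArg (fun z => top K (z * (e1 K * e2 K))) h0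
  have e : e0 K * (e1 K * e2 K) = e0 K * e1 K * e2 K := by ring
  simp only [zero_mul, map_zero, e, top_e] at h6
  exact zero_ne_one h6

variable {K} in
lemma susp_one {d n : ℕ} {Δ : Finset (Finset (Fin n))} {c : Fin n → Fin d}
    (h1 : ∀ ℓ : A K Δ c, ∃ p ∈ deg K Δ c 1, ∀ α : K, p ≠ α • ℓ)
    (h2 : ∀ ℓ : A K Δ c, ∃ p ∈ deg K Δ c 2, ∀ α : K, p ≠ α • (ℓ * ℓ)) :
    NSurj K (join Δ S0) (jc c cS) 1 1 := by
  obtain ⟨ι, φ, τ, hττ, hφι, hφτ, hτ, hιdeg, hlin, hφdeg⟩ := susp_data K Δ c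
  intro l hl
  obtain ⟨ℓ, hℓ, a, rfl⟩ := hlin l hl
  have hs : ∀ p q : DualNumber (A K Δ c), TrivSqZeroExt.snd (p * q) =
      TrivSqZeroExt.fst p * TrivSqZeroExt.snd q +
      TrivSqZeroExt.fst q * TrivSqZeroExt.snd p := by
    intro p q
    rw [TrivSqZeroExt.snd_mul]
    simp [mul_comm]
  have hform : ∀ z : A K (join Δ S0) (jc c cS),
      TrivSqZeroExt.fst (φ ((ι ℓ + a • τ) * z)) = ℓ * TrivSqZeroExt.fst (φ z) ∧
      TrivSqZeroExt.snd (φ ((ι ℓ + a • τ) * z)) =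
        ℓ * TrivSqZeroExt.snd (φ z) + a • TrivSqZeroExt.fst (φ z) := by
    intro z
    have e1 : TrivSqZeroExt.fst (φ (ι ℓ + a • τ)) = ℓ := by
      rw [map_add, map_smul, hφι, hφτ, TrivSqZeroExt.fst_add, TrivSqZeroExt.fst_inl,
        TrivSqZeroExt.fst_smul, DualNumber.fst_eps, smul_zero, add_zero]
    have e2 : TrivSqZeroExt.snd (φ (ι ℓ + a • τ)) = a • (1 : A K Δ c) := by
      rw [map_add, map_smul, hφι, hφτ, TrivSqZeroExt.snd_add, TrivSqZeroExt.snd_inl,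
        TrivSqZeroExt.snd_smul, DualNumber.snd_eps, zero_add]
    rw [map_mul, hs, TrivSqZeroExt.fst_mul, e1, e2, mul_smul_comm, mul_one]
    exact ⟨rfl, rfl⟩
  by_cases ha : a = 0
  · obtain ⟨q, hq, hne⟩ := h1 ℓ
    refine ⟨τ * ι q, deg_mul K _ _ 1 1 _ _ hτ (hιdeg 1 q hq), fun z hz heq => ?_⟩
    rw [pow_one] at heq
    obtain ⟨hz1, hz2⟩ := hφdeg 0 z hz
    obtain ⟨α, hα⟩ := deg_zero_gen K Δ c _ hz2
    have h3 := (hform z).2
    rw [heq, ha, zero_smul, add_zero, map_mul, hφτ, hφι, snd_eps_inl, hα] at h3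
    apply hne α
    rw [h3, mul_comm]
    exact (Algebra.smul_def α ℓ).symm
  · obtain ⟨p, hp, hne⟩ := h2 ℓ
    refine ⟨ι p, hιdeg 2 p hp, fun z hz heq => ?_⟩
    rw [pow_one] at heq
    obtain ⟨hz1, hz2⟩ := hφdeg 0 z hz
    obtain ⟨α, hα⟩ := deg_zero_gen K Δ c _ hz2
    obtain ⟨h3, h4⟩ := hform z
    rw [heq, hφι, TrivSqZeroExt.fst_inl] at h3
    rw [heq, hφι, TrivSqZeroExt.snd_inl, hα] at h4
    have h5 : a • TrivSqZeroExt.fst (φ z) = -(α • ℓ) := by
      have e : ℓ * algebraMap K (A K Δ c) α = α • ℓ := by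
        rw [mul_comm]
        exact (Algebra.smul_def α ℓ).symm
      rw [e] at h4
      exact (neg_eq_of_add_eq_zero_right h4.symm).symm
    have h6 : TrivSqZeroExt.fst (φ z) = (-(a⁻¹ * α)) • ℓ := by
      have h7 := congrArg (fun q => a⁻¹ • q) h5
      simp only [smul_smul, inv_mul_cancel₀ ha, one_smul, smul_neg] at h7
      rw [h7, neg_smul]
    apply hne (-(a⁻¹ * α))
    rw [h3, h6, mul_smul_comm]

lemma base_susp : NSurj K (join Δ0 S0) (jc c0 cS) 1 1 := susp_one (base_one K) (base_two K)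

end Pool.Agent.Y991.LF
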