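import Pool.Agent.Y991.LF.Prod
import Pool.Agent.Y991.LF.Base

set_option autoImplicit false
set_option maxRecDepth 20000
set_option maxHeartbeats 1000000

/-!
# The join of two three-dimensional spheres
-/

universe u

namespace Pool.Agent.Y991.LF

open Pool.Agent.Results.MP_5d3ebc_al.SLPFails
open Pool.Agent.Results.MP_5d3ebc_al.WLPFails (lift_gen mk_mem_deg deg_mul one_mem_deg eps_neg
  abs_inj abs_surj HasWLP)
open TensorProduct

section
variable {K : Type u} [Field K]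
variable {d e n m : ℕ} {Δ : Finset (Finset (Fin n))} {Γ : Finset (Finset (Fin m))}
  {c : Fin n → Fin d} {c' : Fin m → Fin e}

/-- Functionals which are concentrated in one degree. -/
lemma exists_graded (i : ℕ) (W : Submodule K (A K Δ c)) (b : A K Δ c) (hb : b ∈ deg K Δ c i)
    (hbW : b ∉ W) : ∃ F : A K Δ c →ₗ[K] K, F b ≠ 0 ∧ (∀ w ∈ deg K Δ c i, w ∈ W → F w = 0) ∧
      ∀ j, j ≠ i → ∀ z ∈ deg K Δ c j, F z = 0 := by
  obtain ⟨π, hπ1, hπ2⟩ := exists_proj K Δ c i
  obtain ⟨F, hF1, hF2⟩ := Submodule.exists_le_ker_of_notMem hbW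
  refine ⟨F ∘ₗ π, ?_, ?_, ?_⟩
  · show F (π b) ≠ 0
    rw [hπ1 b hb]
    exact hF1
  · intro w hw hwW
    show F (π w) = 0
    rw [hπ1 w hw]
    exact hF2 hwW
  · intro j hj z hz
    show F (π z) = 0
    rw [hπ2 j hj z hz, map_zero]

lemma exists_dual_ne {V : Type u} [AddCommGroup V] [Module K V] {y : V} (hy : y ≠ 0) :
    ∃ F : V →ₗ[K] K, F y ≠ 0 := by
  by_contra hcon
  push Not at hcon
  exact hy ((Module.forall_dual_apply_eq_zero_iff K y).1 hcon)

lemma ninj_join_two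
    (h : ∀ ℓ ∈ deg K Δ c 1, ∃ y ∈ deg K Δ c 1, y ≠ 0 ∧ ℓ ^ 2 * y = 0 ∧
      ∃ t ∈ deg K Δ c 1, t * y ≠ 0)
    (h' : NInj K Γ c' 1 2) : NInj K (join Δ Γ) (jc c c') 3 1 := by
  obtain ⟨ι, ι', φ, hφ, hι, hι', hlin, hspan⟩ := join_data K Δ Γ c c'
  have hne : ∀ a b, a ≠ 0 → b ≠ 0 → ι a * ι' b ≠ 0 := by
    intro a b ha hb h0
    obtain ⟨F, hF⟩ := exists_dual_ne (K := K) ha
    obtain ⟨G, hG⟩ := exists_dual_ne (K := K) hb
    have h1 := congrArg (fun z => FG F G (φ z)) h0
    simp only [hφ, FG_tmul, map_zero] at h1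
    exact mul_ne_zero hF hG h1
  intro l hl
  obtain ⟨ℓ, hℓ, r, hr, rfl⟩ := hlin l hl
  obtain ⟨y, hy, hy0, hly, t, ht, hty⟩ := h ℓ hℓ
  obtain ⟨y', hy', hy0', hry⟩ := h' r hr
  have e1 : ι ℓ * (ι ℓ * ι y) = 0 := by
    rw [← map_mul, ← map_mul, ← mul_assoc, ← pow_two, hly, map_zero]
  have e2 : ι' r * (ι' r * ι' y') = 0 := by
    rw [← map_mul, ← map_mul, ← mul_assoc, ← pow_two, hry, map_zero]
  have hly2 : ℓ * y ∈ deg K Δ c 2 := deg_mul K Δ c 1 1 _ _ hℓ hy
  have hry2 : r * y' ∈ deg K Γ c' 2 := deg_mul K Γ c' 1 1 _ _ hr hy'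
  by_cases h1 : ℓ * y = 0
  · by_cases h2 : r * y' = 0
    · refine ⟨ι (t * y) * ι' y', deg_mul K _ _ 2 1 _ _ (hι 2 _ (deg_mul K Δ c 1 1 _ _ ht hy))
        (hι' 1 _ hy'), hne _ _ hty hy0', ?_⟩
      have e3 : ι ℓ * ι y = 0 := by rw [← map_mul, h1, map_zero]
      have e4 : ι' r * ι' y' = 0 := by rw [← map_mul, h2, map_zero]
      rw [map_mul]
      calc (ι ℓ + ι' r) ^ 1 * (ι t * ι y * ι' y') =
          ι t * (ι ℓ * ι y) * ι' y' + ι t * ι y * (ι' r * ι' y') := by ring
        _ = 0 := by rw [e3, e4]; ring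
    · refine ⟨ι y * ι' (r * y'), deg_mul K _ _ 1 2 _ _ (hι 1 _ hy) (hι' 2 _ hry2),
        hne _ _ hy0 h2, ?_⟩
      have e3 : ι ℓ * ι y = 0 := by rw [← map_mul, h1, map_zero]
      rw [map_mul]
      calc (ι ℓ + ι' r) ^ 1 * (ι y * (ι' r * ι' y')) =
          (ι ℓ * ι y) * (ι' r * ι' y') + ι y * (ι' r * (ι' r * ι' y')) := by ring
        _ = 0 := by rw [e3, e2]; ring
  · refine ⟨ι (ℓ * y) * ι' y' - ι y * ι' (r * y'), Submodule.sub_mem _
      (deg_mul K _ _ 2 1 _ _ (hι 2 _ hly2) (hι' 1 _ hy'))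
      (deg_mul K _ _ 1 2 _ _ (hι 1 _ hy) (hι' 2 _ hry2)), ?_, ?_⟩
    · intro h0
      obtain ⟨F, hF1, -, hF2⟩ := exists_graded 2 ⊥ (ℓ * y) hly2 (by
        rw [Submodule.mem_bot]
        exact h1)
      obtain ⟨G, hG⟩ := exists_dual_ne (K := K) hy0'
      have h3 := congrArg (fun z => FG F G (φ z)) h0
      simp only [map_sub, hφ, FG_tmul, map_zero] at h3
      rw [hF2 1 (by norm_num) y hy, zero_mul, sub_zero] at h3
      exact mul_ne_zero hF1 hG h3
    · rw [map_mul, map_mul]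
      calc (ι ℓ + ι' r) ^ 1 * (ι ℓ * ι y * ι' y' - ι y * (ι' r * ι' y')) =
          (ι ℓ * (ι ℓ * ι y)) * ι' y' - ι y * (ι' r * (ι' r * ι' y')) := by ring
        _ = 0 := by rw [e1, e2]; ring

lemma nsurj_join_two (h : NSurj K Δ c 1 2)
    (h1 : ∀ r : A K Γ c', ∃ p ∈ deg K Γ c' 1, ∀ α : K, p ≠ α • r)
    (h2 : ∀ r : A K Γ c', ∃ p ∈ deg K Γ c' 2, ∀ α : K, p ≠ α • (r * r)) :
    NSurj K (join Δ Γ) (jc c c') 3 1 := by
  obtain ⟨ι, ι', φ, hφ, hι, hι', hlin, hspan⟩ := join_data K Δ Γ c c'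
  intro l hl
  obtain ⟨ℓ, hℓ, r, hr, rfl⟩ := hlin l hl
  obtain ⟨b, hb, hlb⟩ := h ℓ hℓ
  obtain ⟨F, hF1, hF2, hF3⟩ := exists_graded 3 ((deg K Δ c 1).map (LinearMap.mulLeft K (ℓ ^ 2))) b
    hb (by
      rintro ⟨y, hy, hyb⟩
      exact hlb y hy hyb)
  have hFF : ∀ p, ∀ a ∈ deg K Δ c p, F (ℓ ^ 2 * a) = 0 := by
    intro p a ha
    have hd : ℓ ^ 2 * a ∈ deg K Δ c (2 + p) := by
      rw [pow_two]
      exact deg_mul K Δ c 2 p _ _ (deg_mul K Δ c 1 1 _ _ hℓ hℓ) ha
    by_cases hp : p = 1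
    · subst hp
      exact hF2 _ hd ⟨a, ha, rfl⟩
    · exact hF3 (2 + p) (by omega) _ hd
  have hscal : ∀ (W : Submodule K (A K Γ c')) (w : A K Γ c'), w ∈ W → ∀ z ∈ deg K Γ c' 0,
      w * z ∈ W := by
    intro W w hw z hz
    obtain ⟨α, rfl⟩ := deg_zero_gen K Γ c' z hz
    have : w * algebraMap K (A K Γ c') α = α • w := by
      rw [mul_comm]
      exact (Algebra.smul_def α w).symm
    rw [this]
    exact Submodule.smul_mem _ _ hw
  by_cases hcase : ∃ a ∈ deg K Δ c 2, F (ℓ * a) ≠ 0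
  · obtain ⟨a₀, ha₀, hFa₀⟩ := hcase
    obtain ⟨p₀, hp₀, hp₀ne⟩ := h2 r
    obtain ⟨G, hG1, hG2, hG3⟩ := exists_graded 2 (Submodule.span K {r * r}) p₀ hp₀ (by
      intro hmem
      obtain ⟨α, hα⟩ := Submodule.mem_span_singleton.1 hmem
      exact hp₀ne α hα.symm)
    have hGG : ∀ q, ∀ z ∈ deg K Γ c' q, G (r * (r * z)) = 0 := by
      intro q z hz
      have hd : r * (r * z) ∈ deg K Γ c' (2 + q) := by
        rw [← mul_assoc]
        exact deg_mul K Γ c' 2 q _ _ (deg_mul K Γ c' 1 1 _ _ hr hr) hz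
      by_cases hq : q = 0
      · subst hq
        apply hG2 _ hd
        rw [← mul_assoc]
        exact hscal _ _ (Submodule.mem_span_singleton_self _) z hz
      · exact hG3 (2 + q) (by omega) _ hd
    let Φ : (A K Δ c ⊗[K] A K Γ c') →ₗ[K] K :=
      FG F (G ∘ₗ LinearMap.mulLeft K r) - FG (F ∘ₗ LinearMap.mulLeft K ℓ) G
    have hΦ : ∀ a z, Φ (a ⊗ₜ[K] z) = F a * G (r * z) - F (ℓ * a) * G z := by
      intro a z
      show FG F (G ∘ₗ LinearMap.mulLeft K r) (a ⊗ₜ[K] z) -
        FG (F ∘ₗ LinearMap.mulLeft K ℓ) G (a ⊗ₜ[K] z) = _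
      rw [FG_tmul, FG_tmul]
      rfl
    refine ⟨ι a₀ * ι' p₀, deg_mul K _ _ 2 2 _ _ (hι 2 _ ha₀) (hι' 2 _ hp₀), ?_⟩
    intro z hz heq
    have h3 := congrArg (fun z => Φ (φ z)) heq
    simp only [hφ, hΦ, pow_one] at h3
    rw [hF3 2 (by norm_num) a₀ ha₀, zero_mul, zero_sub] at h3
    have h4 : ∀ z ∈ Submodule.span K
        {w | ∃ p q a b, a ∈ deg K Δ c p ∧ b ∈ deg K Γ c' q ∧ w = ι a * ι' b},
        Φ (φ ((ι ℓ + ι' r) * z)) = 0 := by
      intro z hz
      induction hz using Submodule.span_induction with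
      | mem w hw =>
        obtain ⟨p, q, a, b, ha, hb, rfl⟩ := hw
        have e : (ι ℓ + ι' r) * (ι a * ι' b) = ι (ℓ * a) * ι' b + ι a * ι' (r * b) := by
          rw [map_mul, map_mul]
          ring
        have e2 : ℓ * (ℓ * a) = ℓ ^ 2 * a := by ring
        rw [e, map_add, map_add, hφ, hφ, hΦ, hΦ, hGG q b hb, e2, hFF p a ha]
        ring
      | zero => rw [mul_zero, map_zero, map_zero]
      | add w w' _ _ h3 h4 => rw [mul_add, map_add, map_add, h3, h4, add_zero]
      | smul a w _ h3 => rw [mul_smul_comm, map_smul, map_smul, h3, smul_zero]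
    rw [h4 z (hspan _ z hz)] at h3
    exact mul_ne_zero hFa₀ hG1 (neg_eq_zero.1 h3.symm)
  · push Not at hcase
    have hFF1 : ∀ p, ∀ a ∈ deg K Δ c p, F (ℓ * a) = 0 := by
      intro p a ha
      by_cases hp : p = 2
      · subst hp
        exact hcase a ha
      · exact hF3 (1 + p) (by omega) _ (deg_mul K Δ c 1 p _ _ hℓ ha)
    obtain ⟨p₀, hp₀, hp₀ne⟩ := h1 r
    obtain ⟨G, hG1, hG2, hG3⟩ := exists_graded 1 (Submodule.span K {r}) p₀ hp₀ (by
      intro hmem
      obtain ⟨α, hα⟩ := Submodule.mem_span_singleton.1 hmem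
      exact hp₀ne α hα.symm)
    have hGG : ∀ q, ∀ z ∈ deg K Γ c' q, G (r * z) = 0 := by
      intro q z hz
      have hd : r * z ∈ deg K Γ c' (1 + q) := deg_mul K Γ c' 1 q _ _ hr hz
      by_cases hq : q = 0
      · subst hq
        exact hG2 _ hd (hscal _ _ (Submodule.mem_span_singleton_self _) z hz)
      · exact hG3 (1 + q) (by omega) _ hd
    refine ⟨ι b * ι' p₀, deg_mul K _ _ 3 1 _ _ (hι 3 _ hb) (hι' 1 _ hp₀), ?_⟩
    intro z hz heq
    have h3 := congrArg (fun z => FG F G (φ z)) heq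
    simp only [hφ, FG_tmul, pow_one] at h3
    have h4 : ∀ z ∈ Submodule.span K
        {w | ∃ p q a b, a ∈ deg K Δ c p ∧ b ∈ deg K Γ c' q ∧ w = ι a * ι' b},
        FG F G (φ ((ι ℓ + ι' r) * z)) = 0 := by
      intro z hz
      induction hz using Submodule.span_induction with
      | mem w hw =>
        obtain ⟨p, q, a, b, ha, hb, rfl⟩ := hw
        have e : (ι ℓ + ι' r) * (ι a * ι' b) = ι (ℓ * a) * ι' b + ι a * ι' (r * b) := by
          rw [map_mul, map_mul]
          ring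
        rw [e, map_add, map_add, hφ, hφ, FG_tmul, FG_tmul, hGG q b hb, hFF1 p a ha]
        ring
      | zero => rw [mul_zero, map_zero, map_zero]
      | add w w' _ _ h3 h4 => rw [mul_add, map_add, map_add, h3, h4, add_zero]
      | smul a w _ h3 => rw [mul_smul_comm, map_smul, map_smul, h3, smul_zero]
    rw [h4 z (hspan _ z hz)] at h3
    exact mul_ne_zero hF1 hG1 h3.symm

end

/-! ### Multiples of the elements of the kernel -/

section Base
variable (K : Type u) [Field K]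

/-- A tree on the vertices of color 3: adjacent vertices have a common antipodal pair. -/
def pa : Fin 12 → Fin 12 := ![0, 0, 0, 0, 1, 2, 3, 4, 5, 2, 1, 0]

/-- The color of the common pair. -/
def pc : Fin 12 → Fin 3 := ![0, 2, 2, 1, 0, 1, 0, 1, 0, 0, 1, 0]

lemma pa_lt : ∀ w : Fin 12, w ≠ 0 → pa w < w := by decide

/-- The first and the second vertex of the pair. -/
def u0 (w : Fin 12) : Fin 24 := f0 w (pc w)
/-- The first and the second vertex of the pair. -/
def u1 (w : Fin 12) : Fin 24 := f1 w (pc w)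

lemma pair_color : ∀ w, c0 (u0 w) = co3 (pc w) ∧ c0 (u1 w) = co3 (pc w) ∧ u0 w ≠ u1 w ∧
    co3 (pc w) ≠ 3 := by decide

/-- All pairs of a vertex of the pair and one of the two vertices of color three are edges. -/
lemma pair_faces : ∀ w : Fin 12, w ≠ 0 → ∀ a ∈ [u0 w, u1 w], ∀ b ∈ [W w, W (pa w)],
    ∃ F ∈ facets, F.testBit a = true ∧ F.testBit b = true := by decide +kernel

/-- The two variables. -/
noncomputable def g0 : D2 K := i1 K (ε1 K)
/-- The two variables. -/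
noncomputable def g1 : D2 K := ε2 K

lemma g00 : g0 K * g0 K = 0 := by
  have h : ε1 K * ε1 K = 0 := DualNumber.eps_mul_eps
  rw [g0, ← map_mul, h, map_zero]
lemma g11 : g1 K * g1 K = 0 := DualNumber.eps_mul_eps

lemma g01 : s1 K (s2 K (g0 K * g1 K)) = 1 := by
  rw [g0, g1, s2_e, s1_e]

/-- The values of the homomorphism. -/
noncomputable def val (w : Fin 12) (v : Fin 24) : D2 K :=
  (if v = u0 w then g0 K else 0) - (if v = u1 w then g0 K else 0) +
  ((if v = W w then g1 K else 0) - (if v = W (pa w) then g1 K else 0))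

lemma exists_psi (w : Fin 12) (hw : w ≠ 0) : ∃ ψ : A K Δ0 c0 →ₐ[K] D2 K,
    ∀ v, ψ (x K v) = val K w v := by
  have hu0W : ∀ w v, u0 w ≠ W v := by decide
  have hu1W : ∀ w v, u1 w ≠ W v := by decide
  have hval : ∀ v, (v = u0 w ∨ v = u1 w) ∨ (v = W w ∨ v = W (pa w)) ∨ val K w v = 0 := by
    intro v
    by_cases h1 : v = u0 w
    · exact Or.inl (Or.inl h1)
    · by_cases h2 : v = u1 w
      · exact Or.inl (Or.inr h2)
      · by_cases h3 : v = W w
        · exact Or.inr (Or.inl (Or.inl h3))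
        · by_cases h4 : v = W (pa w)
          · exact Or.inr (Or.inl (Or.inr h4))
          · right; right
            simp [val, h1, h2, h3, h4]
  have hvalu : ∀ v, (v = u0 w ∨ v = u1 w) → ∃ s : ℤ, val K w v = s * g0 K := by
    intro v hv
    rcases hv with rfl | rfl
    · refine ⟨1, ?_⟩
      have h1 : u0 w ≠ u1 w := (pair_color w).2.2.1
      simp [val, h1, hu0W]
    · refine ⟨-1, ?_⟩
      have h1 : u1 w ≠ u0 w := (pair_color w).2.2.1.symm
      simp [val, h1, hu1W]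
  have hWne : W w ≠ W (pa w) := fun h => absurd (W_inj h) (ne_of_gt (pa_lt w hw))
  have hvalW : ∀ v, (v = W w ∨ v = W (pa w)) → ∃ s : ℤ, val K w v = s * g1 K := by
    intro v hv
    rcases hv with rfl | rfl
    · refine ⟨1, ?_⟩
      simp [val, (hu0W _ _).symm, (hu1W _ _).symm, hWne]
    · refine ⟨-1, ?_⟩
      simp [val, (hu0W _ _).symm, (hu1W _ _).symm, hWne.symm]
  obtain ⟨ψ, hψ⟩ := exists_lift K (B := D2 K) (val K w) (by
      intro j
      simp only [val]
      rw [Finset.sum_add_distrib, Finset.sum_sub_distrib, Finset.sum_sub_distrib,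
        Finset.sum_ite_eq', Finset.sum_ite_eq', Finset.sum_ite_eq', Finset.sum_ite_eq']
      simp only [Finset.mem_filter, Finset.mem_univ, true_and, W_color, (pair_color w).1,
        (pair_color w).2.1]
      rw [sub_self, sub_self, add_zero]) (by
      intro s hs
      by_contra hne
      have hnz : ∀ v ∈ s, val K w v ≠ 0 := fun v hv h0 => hne (Finset.prod_eq_zero hv h0)
      have hpair : ∀ a ∈ s, ∀ b ∈ s, a ≠ b → val K w a * val K w b ≠ 0 := by
        intro a ha b hb hab h0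
        have hdvd := Finset.prod_dvd_prod_of_subset {a, b} s (val K w) (by
          intro c hc
          simp only [Finset.mem_insert, Finset.mem_singleton] at hc
          rcases hc with rfl | rfl
          · exact ha
          · exact hb)
        rw [Finset.prod_pair hab, h0] at hdvd
        exact hne (zero_dvd_iff.mp hdvd)
      have hU : ∀ a ∈ s, ∀ b ∈ s, (a = u0 w ∨ a = u1 w) → (b = u0 w ∨ b = u1 w) → a = b := by
        intro a ha b hb h1 h2
        by_contra hab
        obtain ⟨s1, e1⟩ := hvalu a h1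
        obtain ⟨s2, e2⟩ := hvalu b h2
        apply hpair a ha b hb hab
        rw [e1, e2]
        linear_combination ((s1 : D2 K) * (s2 : D2 K)) * g00 K
      have hV : ∀ a ∈ s, ∀ b ∈ s, (a = W w ∨ a = W (pa w)) → (b = W w ∨ b = W (pa w)) →
          a = b := by
        intro a ha b hb h1 h2
        by_contra hab
        obtain ⟨s1, e1⟩ := hvalW a h1
        obtain ⟨s2, e2⟩ := hvalW b h2
        apply hpair a ha b hb hab
        rw [e1, e2]
        linear_combination ((s1 : D2 K) * (s2 : D2 K)) * g11 K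
      have hcls : ∀ v ∈ s, (v = u0 w ∨ v = u1 w) ∨ (v = W w ∨ v = W (pa w)) := by
        intro v hv
        rcases hval v with h | h | h
        · exact Or.inl h
        · exact Or.inr h
        · exact absurd h (hnz v hv)
      -- choose the members
      obtain ⟨a, ha1, ha2⟩ : ∃ a ∈ [u0 w, u1 w], ∀ v ∈ s, (v = u0 w ∨ v = u1 w) → v = a := by
        by_cases h : u0 w ∈ s
        · exact ⟨u0 w, by simp, fun v hv h1 => hU v hv _ h h1 (Or.inl rfl)⟩
        · refine ⟨u1 w, by simp, fun v hv h1 => ?_⟩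
          rcases h1 with h1 | h1
          · exact absurd (h1 ▸ hv) h
          · exact h1
      obtain ⟨b, hb1, hb2⟩ : ∃ b ∈ [W w, W (pa w)], ∀ v ∈ s, (v = W w ∨ v = W (pa w)) →
          v = b := by
        by_cases h : W w ∈ s
        · exact ⟨W w, by simp, fun v hv h1 => hV v hv _ h h1 (Or.inl rfl)⟩
        · refine ⟨W (pa w), by simp, fun v hv h1 => ?_⟩
          rcases h1 with h1 | h1
          · exact absurd (h1 ▸ hv) h
          · exact h1
      obtain ⟨F, hF, hFa, hFb⟩ := pair_faces w hw a ha1 b hb1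
      apply hs
      rw [mem_Δ0]
      refine ⟨F, hF, fun v hv => ?_⟩
      rcases hcls v hv with h | h
      · rw [ha2 v hv h]; exact hFa
      · rw [hb2 v hv h]; exact hFb)
  exact ⟨ψ, hψ⟩

/-- Nonzero combinations of the color three variables are not killed by all linear forms. -/
lemma exists_mult (y : Fin 12 → K) (hy : y ≠ 0) (h0 : y 0 = 0) :
    ∃ t ∈ deg K Δ0 c0 1, t * ∑ w, y w • x K (W w) ≠ 0 := by
  obtain ⟨w, hw, hyw⟩ : ∃ w : Fin 12, w ≠ 0 ∧ y w ≠ y (pa w) := by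
    by_contra hcon
    push Not at hcon
    apply hy
    have hall : ∀ n : ℕ, ∀ w : Fin 12, w.1 = n → y w = 0 := by
      intro n
      induction n using Nat.strong_induction_on with
      | _ n ih =>
        intro w hw
        by_cases hw0 : w = 0
        · rw [hw0]; exact h0
        · rw [hcon w hw0]
          exact ih (pa w).1 (by rw [← hw]; exact pa_lt w hw0) (pa w) rfl
    funext w
    exact hall w.1 w rfl
  obtain ⟨ψ, hψ⟩ := exists_psi K w hw
  refine ⟨x K (u0 w), x_mem_deg K _, ?_⟩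
  intro hz
  have h1 := congrArg (fun z => s1 K (s2 K (ψ z))) hz
  have hu0W : ∀ w v, u0 w ≠ W v := by decide
  have hu1W : ∀ w v, u1 w ≠ W v := by decide
  have hv0 : val K w (u0 w) = g0 K := by
    have h1 : u0 w ≠ u1 w := (pair_color w).2.2.1
    simp [val, h1, hu0W]
  have hvW : ∀ v, val K w (W v) = (if v = w then g1 K else 0) - (if v = pa w then g1 K else 0) := by
    intro v
    have e1 : (W v = W w) = (v = w) := propext W_inj.eq_iff
    have e2 : (W v = W (pa w)) = (v = pa w) := propext W_inj.eq_iff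
    simp [val, (hu0W _ _).symm, (hu1W _ _).symm, e1, e2]
  have h2 : ψ (x K (u0 w) * ∑ v, y v • x K (W v)) = (y w - y (pa w)) • (g0 K * g1 K) := by
    rw [map_mul, hψ, hv0, map_sum]
    have h3 : ∀ v, ψ (y v • x K (W v)) = (if v = w then y v • g1 K else 0) -
        (if v = pa w then y v • g1 K else 0) := by
      intro v
      rw [map_smul, hψ, hvW, smul_sub]
      simp only [smul_ite, smul_zero]
    rw [Finset.sum_congr rfl (fun v _ => h3 v), Finset.sum_sub_distrib, Finset.sum_ite_eq',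
      Finset.sum_ite_eq']
    simp only [Finset.mem_univ, if_true]
    rw [← sub_smul, mul_smul_comm]
  simp only [h2, map_smul, g01, map_zero, smul_eq_mul, mul_one] at h1
  exact hyw (sub_eq_zero.1 h1)

/-- The kernel of the square of a linear form, with multiples. -/
lemma base_inj_mult (l : A K Δ0 c0) (hl : l ∈ deg K Δ0 c0 1) : ∃ y ∈ deg K Δ0 c0 1, y ≠ 0 ∧
    l ^ 2 * y = 0 ∧ ∃ t ∈ deg K Δ0 c0 1, t * y ≠ 0 := by
  obtain ⟨a, rfl⟩ := deg_one K l hl
  obtain ⟨y, hy, hN⟩ := exists_kernel K (ι := Fin 3 ⊕ Fin 3 ⊕ Fin 3 ⊕ Unit) (by decide)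
    (fun r w => match r with
      | Sum.inl s => (M01 w s : K) *
          (2 * (a (f0 w 0) - a (f1 w 0)) * (a (f0 w 1) - a (f1 w 1)))
      | Sum.inr (Sum.inl s) => (M02 w s : K) *
          (2 * (a (f0 w 0) - a (f1 w 0)) * (a (f0 w 2) - a (f1 w 2)))
      | Sum.inr (Sum.inr (Sum.inl s)) => (M12 w s : K) *
          (2 * (a (f0 w 1) - a (f1 w 1)) * (a (f0 w 2) - a (f1 w 2)))
      | Sum.inr (Sum.inr (Sum.inr _)) => if w = 0 then 1 else 0)
  have h0 : y 0 = 0 := by
    have := hN (Sum.inr (Sum.inr (Sum.inr ())))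
    simpa using this
  refine ⟨∑ w, y w • x K (W w), ?_, W_sum_ne K y hy h0, ?_, exists_mult K y hy h0⟩
  · apply Submodule.sum_mem
    intro w _
    exact Submodule.smul_mem _ _ (x_mem_deg K (W w))
  · rw [Finset.mul_sum]
    have h1 : ∀ w, (∑ v, a v • x K v) ^ 2 * (y w • x K (W w)) =
        ((2 * (a (f0 w 0) - a (f1 w 0)) * (a (f0 w 1) - a (f1 w 1))) * y w) • t K w 0 1 +
        ((2 * (a (f0 w 0) - a (f1 w 0)) * (a (f0 w 2) - a (f1 w 2))) * y w) • t K w 0 2 +
        ((2 * (a (f0 w 1) - a (f1 w 1)) * (a (f0 w 2) - a (f1 w 2))) * y w) • t K w 1 2 := by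
      intro w
      rw [mul_smul_comm, l_sq_mul]
      module
    rw [Finset.sum_congr rfl (fun w _ => h1 w), Finset.sum_add_distrib, Finset.sum_add_distrib]
    rw [sum_red K 0 1 M01 S01 C01 red01, sum_red K 0 2 M02 S02 C02 red02,
      sum_red K 1 2 M12 S12 C12 red12, add_zero, add_zero]
    · intro s
      rw [← hN (Sum.inr (Sum.inr (Sum.inl s)))]
      apply Finset.sum_congr rfl
      intro w _
      simp only
      ring
    · intro s
      rw [← hN (Sum.inr (Sum.inl s))]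
      apply Finset.sum_congr rfl
      intro w _
      simp only
      ring
    · intro s
      rw [← hN (Sum.inl s)]
      apply Finset.sum_congr rfl
      intro w _
      simp only
      ring

lemma eight_inj : NInj K (join Δ0 Δ0) (jc c0 c0) 3 1 :=
  ninj_join_two (base_inj_mult K) (base_inj K)

lemma eight_surj : NSurj K (join Δ0 Δ0) (jc c0 c0) 3 1 :=
  nsurj_join_two (base_surj K) (base_one K) (base_two K)

end Base

end Pool.Agent.Y991.LF
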