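import Pool.Agent.Y991.LF.Susp

set_option autoImplicit false

/-!
# Products
-/

universe u

namespace Pool.Agent.Y991.LF

open Pool.Agent.Results.MP_5d3ebc_al.SLPFails
open Pool.Agent.Results.MP_5d3ebc_al.WLPFails (lift_gen mk_mem_deg deg_mul one_mem_deg eps_neg
  abs_inj abs_surj HasWLP)
open TensorProduct

section
variable (K : Type u) [Field K]

/-- The projections to the components. -/
lemma exists_proj {d n : ℕ} (Δ : Finset (Finset (Fin n))) (c : Fin n → Fin d) (i : ℕ) :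
    ∃ π : A K Δ c →ₗ[K] A K Δ c, (∀ z ∈ deg K Δ c i, π z = z) ∧
      ∀ j, j ≠ i → ∀ z ∈ deg K Δ c j, π z = 0 := by
  obtain ⟨δ, hδ⟩ := lift_gen K Δ c (B := Polynomial (A K Δ c))
    (fun v => Polynomial.C (gx K Δ c v) * Polynomial.X) (by
      intro j
      rw [← Finset.sum_mul, ← map_sum, gx_theta, map_zero, zero_mul]) (by
      intro s hs
      rw [Finset.prod_mul_distrib, ← map_prod, gx_nonface K Δ c s hs, map_zero, zero_mul])
  have hδ1 : ∀ v, δ (gx K Δ c v) = Polynomial.C (gx K Δ c v) * Polynomial.X := by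
    intro v
    rw [gx, hδ, MvPolynomial.aeval_X]
    rfl
  have key : ∀ j, ∀ z ∈ deg K Δ c j, δ z = Polynomial.C z * Polynomial.X ^ j := by
    apply deg_induction K Δ c (fun j z => δ z = Polynomial.C z * Polynomial.X ^ j)
    · intro z hz
      obtain ⟨a, rfl⟩ := deg_zero_gen K Δ c z hz
      rw [δ.commutes, pow_zero, mul_one]
      rfl
    · intro j v z _ hz
      rw [map_mul, hδ1, hz, map_mul, pow_succ]
      ring
    · intro j z z' h1 h2
      rw [map_add, h1, h2, map_add, add_mul]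
    · intro j a z h1
      have h3 : a • z = algebraMap K (A K Δ c) a * z := Algebra.smul_def a z
      rw [h3, map_mul, δ.commutes, h1, map_mul, mul_assoc]
      rfl
    · intro j
      rw [map_zero, map_zero, zero_mul]
  refine ⟨((Polynomial.lcoeff (A K Δ c) i).restrictScalars K) ∘ₗ δ.toLinearMap, ?_, ?_⟩
  · intro z hz
    show Polynomial.coeff (δ z) i = z
    rw [key i z hz, Polynomial.coeff_C_mul_X_pow, if_pos rfl]
  · intro j hj z hz
    show Polynomial.coeff (δ z) i = 0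
    rw [key j z hz, Polynomial.coeff_C_mul_X_pow, if_neg hj.symm]

variable {d e n m : ℕ} (Δ : Finset (Finset (Fin n))) (Γ : Finset (Finset (Fin m)))
  (c : Fin n → Fin d) (c' : Fin m → Fin e)

/-- The algebra of a join. -/
lemma join_data : ∃ (ι : A K Δ c →ₐ[K] A K (join Δ Γ) (jc c c'))
    (ι' : A K Γ c' →ₐ[K] A K (join Δ Γ) (jc c c'))
    (φ : A K (join Δ Γ) (jc c c') →ₐ[K] (A K Δ c ⊗[K] A K Γ c')),
      (∀ a b, φ (ι a * ι' b) = a ⊗ₜ[K] b) ∧
      (∀ i, ∀ r ∈ deg K Δ c i, ι r ∈ deg K (join Δ Γ) (jc c c') i) ∧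
      (∀ i, ∀ r ∈ deg K Γ c' i, ι' r ∈ deg K (join Δ Γ) (jc c c') i) ∧
      (∀ l ∈ deg K (join Δ Γ) (jc c c') 1, ∃ ℓ ∈ deg K Δ c 1, ∃ r ∈ deg K Γ c' 1,
        l = ι ℓ + ι' r) ∧
      (∀ i, ∀ z ∈ deg K (join Δ Γ) (jc c c') i, z ∈ Submodule.span K
        {w | ∃ p q a b, a ∈ deg K Δ c p ∧ b ∈ deg K Γ c' q ∧ w = ι a * ι' b}) := by
  obtain ⟨ι, hι⟩ := exists_left K Δ Γ c c'
  obtain ⟨ι', hι'⟩ := exists_right K Δ Γ c c'
  obtain ⟨φ, hφ1, hφ2⟩ := join_lift (B := A K Δ c ⊗[K] A K Γ c') K Δ Γ c c'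
    Algebra.TensorProduct.includeLeft Algebra.TensorProduct.includeRight
  have h1 : φ.comp ι = Algebra.TensorProduct.includeLeft := by
    apply Ideal.Quotient.algHom_ext
    apply MvPolynomial.algHom_ext
    intro v
    show φ (ι (gx K Δ c v)) = _
    rw [hι, hφ1]
    rfl
  have h2 : φ.comp ι' = Algebra.TensorProduct.includeRight := by
    apply Ideal.Quotient.algHom_ext
    apply MvPolynomial.algHom_ext
    intro v
    show φ (ι' (gx K Γ c' v)) = _
    rw [hι', hφ2]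
    rfl
  have h1' : ∀ a, φ (ι a) = a ⊗ₜ[K] (1 : A K Γ c') := fun a => DFunLike.congr_fun h1 a
  have h2' : ∀ b, φ (ι' b) = (1 : A K Δ c) ⊗ₜ[K] b := fun b => DFunLike.congr_fun h2 b
  refine ⟨ι, ι', φ, ?_, hom_deg K ι (fun v => by rw [hι]; exact gx_mem K _ _ _),
    hom_deg K ι' (fun v => by rw [hι']; exact gx_mem K _ _ _), ?_, ?_⟩
  · intro a b
    rw [map_mul, h1', h2', Algebra.TensorProduct.tmul_mul_tmul, mul_one, one_mul]
  · intro l hl
    obtain ⟨a, rfl⟩ := deg_one_gen K _ _ l hl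
    refine ⟨∑ v, a (Fin.castAdd m v) • gx K Δ c v, ?_, ∑ v, a (Fin.natAdd n v) • gx K Γ c' v,
      ?_, ?_⟩
    · exact Submodule.sum_mem _ fun v _ => Submodule.smul_mem _ _ (gx_mem K Δ c v)
    · exact Submodule.sum_mem _ fun v _ => Submodule.smul_mem _ _ (gx_mem K Γ c' v)
    · rw [Fin.sum_univ_add, map_sum, map_sum]
      congr 1
      · exact Finset.sum_congr rfl fun v _ => by rw [map_smul, hι]
      · exact Finset.sum_congr rfl fun v _ => by rw [map_smul, hι']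
  · apply deg_induction K (join Δ Γ) (jc c c') (fun i z => z ∈ Submodule.span K
        {w | ∃ p q a b, a ∈ deg K Δ c p ∧ b ∈ deg K Γ c' q ∧ w = ι a * ι' b})
    · intro z hz
      obtain ⟨a, rfl⟩ := deg_zero_gen K _ _ z hz
      apply Submodule.subset_span
      refine ⟨0, 0, algebraMap K _ a, 1, ?_, one_mem_deg K Γ c', ?_⟩
      · rw [Algebra.algebraMap_eq_smul_one]
        exact Submodule.smul_mem _ _ (one_mem_deg K Δ c)
      · rw [map_one, mul_one, ι.commutes]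
    · intro i v z hzz hz
      clear hzz
      induction hz using Submodule.span_induction with
      | mem w hw =>
        obtain ⟨p, q, a, b, ha, hb, rfl⟩ := hw
        apply Submodule.subset_span
        refine Fin.addCases (fun v => ?_) (fun v => ?_) v
        · refine ⟨1 + p, q, gx K Δ c v * a, b, deg_mul K Δ c 1 p _ _ (gx_mem K Δ c v) ha, hb, ?_⟩
          rw [map_mul, hι, mul_assoc]
        · refine ⟨p, 1 + q, a, gx K Γ c' v * b, ha, deg_mul K Γ c' 1 q _ _ (gx_mem K Γ c' v) hb,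
            ?_⟩
          rw [map_mul, hι', mul_left_comm]
      | zero => rw [mul_zero]; exact Submodule.zero_mem _
      | add w w' _ _ h3 h4 => rw [mul_add]; exact Submodule.add_mem _ h3 h4
      | smul a w _ h3 => rw [mul_smul_comm]; exact Submodule.smul_mem _ _ h3
    · intro i z z' h3 h4
      exact Submodule.add_mem _ h3 h4
    · intro i a z h3
      exact Submodule.smul_mem _ _ h3
    · intro i
      exact Submodule.zero_mem _

variable {K Δ Γ c c'}

/-- The product of two functionals. -/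
noncomputable def FG (F : A K Δ c →ₗ[K] K) (G : A K Γ c' →ₗ[K] K) :
    (A K Δ c ⊗[K] A K Γ c') →ₗ[K] K :=
  (LinearMap.mul' K K) ∘ₗ (TensorProduct.map F G)

lemma FG_tmul (F : A K Δ c →ₗ[K] K) (G : A K Γ c' →ₗ[K] K) (a : A K Δ c) (b : A K Γ c') :
    FG F G (a ⊗ₜ[K] b) = F a * G b := by
  simp [FG]

lemma ninj_join {k k' : ℕ} (h : NInj K Δ c k 1) (h' : NInj K Γ c' k' 1) :
    NInj K (join Δ Γ) (jc c c') (k + k') 1 := by
  obtain ⟨ι, ι', φ, hφ, hι, hι', hlin, hspan⟩ := join_data K Δ Γ c c'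
  intro l hl
  obtain ⟨ℓ, hℓ, r, hr, rfl⟩ := hlin l hl
  obtain ⟨y, hy, hy0, hly⟩ := h ℓ hℓ
  obtain ⟨y', hy', hy0', hry⟩ := h' r hr
  rw [pow_one] at hly hry
  refine ⟨ι y * ι' y', deg_mul K _ _ k k' _ _ (hι k y hy) (hι' k' y' hy'), ?_, ?_⟩
  · intro h0
    obtain ⟨F, hF⟩ : ∃ F : Module.Dual K (A K Δ c), F y ≠ 0 := by
      by_contra hcon
      push Not at hcon
      exact hy0 ((Module.forall_dual_apply_eq_zero_iff K y).1 hcon)
    obtain ⟨G, hG⟩ : ∃ G : Module.Dual K (A K Γ c'), G y' ≠ 0 := by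
      by_contra hcon
      push Not at hcon
      exact hy0' ((Module.forall_dual_apply_eq_zero_iff K y').1 hcon)
    have h1 := congrArg (fun z => FG F G (φ z)) h0
    simp only [hφ, FG_tmul, map_zero] at h1
    exact mul_ne_zero hF hG h1
  · have e1 : ι ℓ * ι y = 0 := by rw [← map_mul, hly, map_zero]
    have e2 : ι' r * ι' y' = 0 := by rw [← map_mul, hry, map_zero]
    calc (ι ℓ + ι' r) ^ 1 * (ι y * ι' y') = (ι ℓ * ι y) * ι' y' + ι y * (ι' r * ι' y') := by ring
      _ = 0 := by rw [e1, e2, zero_mul, mul_zero, add_zero]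

/-- A functional which separates an element of a component from the multiples of a linear form. -/
lemma exists_functional {m : ℕ} (ℓ : A K Δ c) (hℓ : ℓ ∈ deg K Δ c 1) (b : A K Δ c)
    (hb : b ∈ deg K Δ c (m + 1)) (h : ∀ y ∈ deg K Δ c m, ℓ * y ≠ b) :
    ∃ F : A K Δ c →ₗ[K] K, F b ≠ 0 ∧ ∀ p, ∀ a ∈ deg K Δ c p, F (ℓ * a) = 0 := by
  obtain ⟨π, hπ1, hπ2⟩ := exists_proj K Δ c (m + 1)
  let W : Submodule K (A K Δ c) := (deg K Δ c m).map (LinearMap.mulLeft K ℓ)
  have hbW : b ∉ W := by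
    rintro ⟨y, hy, hyb⟩
    exact h y hy hyb
  obtain ⟨F, hF1, hF2⟩ := Submodule.exists_le_ker_of_notMem hbW
  refine ⟨F ∘ₗ π, ?_, ?_⟩
  · show F (π b) ≠ 0
    rw [hπ1 b hb]
    exact hF1
  · intro p a ha
    show F (π (ℓ * a)) = 0
    have hd : ℓ * a ∈ deg K Δ c (1 + p) := deg_mul K Δ c 1 p _ _ hℓ ha
    by_cases hp : 1 + p = m + 1
    · have hpm : p = m := by omega
      subst hpm
      rw [add_comm] at hd
      rw [hπ1 _ hd]
      exact hF2 ⟨a, ha, rfl⟩
    · rw [hπ2 _ hp _ hd, map_zero]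

lemma nsurj_join {k k' : ℕ} (h : NSurj K Δ c k 1) (h' : NSurj K Γ c' k' 1) :
    NSurj K (join Δ Γ) (jc c c') (k + k' + 1) 1 := by
  obtain ⟨ι, ι', φ, hφ, hι, hι', hlin, hspan⟩ := join_data K Δ Γ c c'
  intro l hl
  obtain ⟨ℓ, hℓ, r, hr, rfl⟩ := hlin l hl
  obtain ⟨b, hb, hlb⟩ := h ℓ hℓ
  obtain ⟨b', hb', hrb⟩ := h' r hr
  simp only [pow_one] at hlb hrb
  obtain ⟨F, hF1, hF2⟩ := exists_functional ℓ hℓ b hb hlb
  obtain ⟨G, hG1, hG2⟩ := exists_functional r hr b' hb' hrb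
  refine ⟨ι b * ι' b', ?_, ?_⟩
  · have := deg_mul K _ _ (k + 1) (k' + 1) _ _ (hι _ b hb) (hι' _ b' hb')
    have e : k + 1 + (k' + 1) = k + k' + 1 + 1 := by omega
    rwa [e] at this
  · intro z hz heq
    have h1 := congrArg (fun z => FG F G (φ z)) heq
    simp only [hφ, FG_tmul, pow_one] at h1
    have h2 : ∀ z ∈ Submodule.span K
        {w | ∃ p q a b, a ∈ deg K Δ c p ∧ b ∈ deg K Γ c' q ∧ w = ι a * ι' b},
        FG F G (φ ((ι ℓ + ι' r) * z)) = 0 := by
      intro z hz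
      induction hz using Submodule.span_induction with
      | mem w hw =>
        obtain ⟨p, q, a, b, ha, hb, rfl⟩ := hw
        have e : (ι ℓ + ι' r) * (ι a * ι' b) = ι (ℓ * a) * ι' b + ι a * ι' (r * b) := by
          rw [map_mul, map_mul]
          ring
        rw [e, map_add, map_add, hφ, hφ, FG_tmul, FG_tmul, hF2 p a ha, hG2 q b hb, zero_mul,
          mul_zero, add_zero]
      | zero => rw [mul_zero, map_zero, map_zero]
      | add w w' _ _ h3 h4 => rw [mul_add, map_add, map_add, h3, h4, add_zero]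
      | smul a w _ h3 => rw [mul_smul_comm, map_smul, map_smul, h3, smul_zero]
    rw [h2 z (hspan _ z hz)] at h1
    exact mul_ne_zero hF1 hG1 h1.symm

end

end Pool.Agent.Y991.LF
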