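import Pool.Agent.Y991.LF.Top1

set_option autoImplicit false

/-!
# Joins of spheres (topology)
-/

namespace Pool.Agent.Y991.LF

open Pool.Agent.Results.MP_5d3ebc_al.SLPFails
open Filter Topology

/-- Two points. -/
def S0 : Finset (Finset (Fin 2)) := {∅, {0}, {1}}

lemma isComplex_S0 : IsComplex S0 := by
  constructor
  · decide
  · decide

/-- The cone over two points. -/
lemma exists_cone_S0 : Nonempty (Cone (EuclideanSpace ℝ (Fin 1)) S0) := by
  have hnorm : ∀ v : EuclideanSpace ℝ (Fin 1), ‖v‖ = |v 0| := by
    intro v
    rw [EuclideanSpace.norm_eq]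
    simp [Real.sqrt_sq_eq_abs]
  refine ⟨⟨fun v => ![max (v 0) 0, max (-(v 0)) 0], ?_, ?_, ?_, ?_, ?_, ?_, ?_⟩⟩
  · rw [continuous_pi_iff]
    intro i
    fin_cases i
    · simp only [Fin.zero_eta, Matrix.cons_val_zero]
      fun_prop
    · simp only [Fin.mk_one, Matrix.cons_val_one, Matrix.cons_val_zero]
      fun_prop
  · intro v w h
    have h0 := congrFun h 0
    have h1 := congrFun h 1
    simp only [Matrix.cons_val_zero, Matrix.cons_val_one] at h0 h1
    ext i
    have hi : i = 0 := Subsingleton.elim _ _
    subst hi
    have e : ∀ x : ℝ, x = max x 0 - max (-x) 0 := by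
      intro x
      rcases le_total 0 x with h | h
      · rw [max_eq_left h, max_eq_right (by linarith)]; ring
      · rw [max_eq_right h, max_eq_left (by linarith)]; ring
    rw [e (v 0), e (w 0), h0, h1]
  · intro v i
    fin_cases i
    · exact le_max_right _ _
    · exact le_max_right _ _
  · intro v
    rcases lt_trichotomy (v 0) 0 with h | h | h
    · have : supp (![max (v 0) 0, max (-(v 0)) 0] : Fin 2 → ℝ) = {1} := by
        ext i
        rw [mem_supp]
        fin_cases i
        · simp [h.le]
        · simp [h]
      rw [this]; decide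
    · have : supp (![max (v 0) 0, max (-(v 0)) 0] : Fin 2 → ℝ) = ∅ := by
        ext i
        rw [mem_supp]
        fin_cases i
        · simp [h]
        · simp [h]
      rw [this]; decide
    · have : supp (![max (v 0) 0, max (-(v 0)) 0] : Fin 2 → ℝ) = {0} := by
        ext i
        rw [mem_supp]
        fin_cases i
        · simp [h]
        · simp [h.le]
      rw [this]; decide
  · intro v
    rw [hnorm, Fin.sum_univ_two]
    simp only [Matrix.cons_val_zero, Matrix.cons_val_one]
    rcases le_total 0 (v 0) with h | h
    · rw [max_eq_left h, max_eq_right (by linarith), abs_of_nonneg h, add_zero]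
    · rw [max_eq_right h, max_eq_left (by linarith), abs_of_nonpos h, zero_add]
  · intro t v ht
    have e1 : max ((t • v) 0) 0 = t * max (v 0) 0 := by
      rw [mul_max_of_nonneg _ _ ht, mul_zero]
      rfl
    have e2 : max (-((t • v) 0)) 0 = t * max (-(v 0)) 0 := by
      rw [mul_max_of_nonneg _ _ ht, mul_zero, mul_neg]
      rfl
    ext i
    fin_cases i
    · exact e1
    · exact e2
  · intro u hu hs
    have h2 : supp u ≠ {0, 1} := by
      intro h
      rw [h] at hs
      revert hs
      decide
    have h01 : u 0 = 0 ∨ u 1 = 0 := by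
      by_contra hcon
      push Not at hcon
      apply h2
      ext i
      rw [mem_supp]
      fin_cases i
      · simpa using hcon.1
      · simpa using hcon.2
    refine ⟨WithLp.toLp 2 (fun _ => u 0 - u 1), ?_⟩
    have hu0 := hu 0
    have hu1 := hu 1
    ext i
    fin_cases i
    · simp only [Fin.zero_eta, Matrix.cons_val_zero]
      rcases h01 with h | h
      · rw [h]; simpa using hu1
      · rw [h]; simpa using hu0
    · simp only [Fin.mk_one, Matrix.cons_val_one]
      rcases h01 with h | h
      · rw [h]; simpa using hu1
      · rw [h]; simpa using hu0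

end Pool.Agent.Y991.LF
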