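import Pool.Agent.Y991.LF.Alg
import Pool.Agent.Y991.LF.Top3

set_option autoImplicit false

/-!
# Suspensions
-/

universe u

namespace Pool.Agent.Y991.LF

open Pool.Agent.Results.MP_5d3ebc_al.SLPFails
open Pool.Agent.Results.MP_5d3ebc_al.WLPFails (lift_gen mk_mem_deg deg_mul one_mem_deg eps_neg
  abs_inj abs_surj HasWLP)

/-- The colouring of two points. -/
def cS : Fin 2 → Fin 1 := fun _ => 0

lemma proper_cS : IsProperColoring S0 cS := by
  intro a b hab h
  exfalso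
  revert a b
  decide

section
variable (K : Type u) [Field K]

/-- The degree zero component. -/
lemma deg_zero_gen {d n : ℕ} (Δ : Finset (Finset (Fin n))) (c : Fin n → Fin d) (z : A K Δ c)
    (hz : z ∈ deg K Δ c 0) : ∃ a : K, z = algebraMap K (A K Δ c) a := by
  obtain ⟨p, hp, rfl⟩ := hz
  rw [SetLike.mem_coe, MvPolynomial.mem_homogeneousSubmodule] at hp
  have h1 := MvPolynomial.totalDegree_eq_zero_iff_eq_C.1 (Nat.le_zero.1 hp.totalDegree_le)
  refine ⟨MvPolynomial.coeff 0 p, ?_⟩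
  conv_lhs => rw [h1]
  rfl

lemma S0_add : gx K S0 cS 0 + gx K S0 cS 1 = 0 := by
  have h := gx_theta K S0 cS 0
  have hs : (Finset.univ.filter (fun v : Fin 2 => cS v = 0)) = {0, 1} := by decide
  rwa [hs, Finset.sum_pair (by decide)] at h

lemma S0_mul : gx K S0 cS 0 * gx K S0 cS 1 = 0 := by
  have h := gx_nonface K S0 cS {0, 1} (by decide)
  rwa [Finset.prod_pair (by decide)] at h

variable {K} in
lemma beta {R : Type u} [CommRing R] [Algebra K R] : ∃ β : A K S0 cS →ₐ[K] DualNumber R,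
    β (gx K S0 cS 0) = DualNumber.eps ∧ β (gx K S0 cS 1) = - DualNumber.eps := by
  obtain ⟨β, hβ⟩ := lift_gen K S0 cS (B := DualNumber R)
    (fun v => if v = 0 then DualNumber.eps else - DualNumber.eps) (by
      intro j
      have hs : ∀ j : Fin 1, (Finset.univ.filter (fun v : Fin 2 => cS v = j)) = {0, 1} := by
        decide
      rw [hs, Finset.sum_pair (by decide), if_pos rfl, if_neg (by decide), add_neg_cancel]) (by
      intro s hs
      have h1 : ∀ s : Finset (Fin 2), s ∉ S0 → s = {0, 1} := by decide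
      rw [h1 s hs, Finset.prod_pair (by decide), if_pos rfl, if_neg (by decide)]
      exact eps_neg)
  refine ⟨β, ?_, ?_⟩
  · rw [gx, hβ, MvPolynomial.aeval_X, if_pos rfl]
  · rw [gx, hβ, MvPolynomial.aeval_X, if_neg (by decide)]

variable {K} in
lemma snd_two {R : Type u} [CommRing R] [Algebra K R] (l : R) (a : K) (p : DualNumber R) :
    TrivSqZeroExt.snd (((TrivSqZeroExt.inl l : DualNumber R) + a • DualNumber.eps) ^ 2 * p) =
      l * (l * TrivSqZeroExt.snd p + (2 * a) • TrivSqZeroExt.fst p) := by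
  have hs : ∀ p q : DualNumber R, TrivSqZeroExt.snd (p * q) =
      TrivSqZeroExt.fst p * TrivSqZeroExt.snd q +
      TrivSqZeroExt.fst q * TrivSqZeroExt.snd p := by
    intro p q
    rw [TrivSqZeroExt.snd_mul]
    simp [mul_comm]
  rw [pow_two]
  simp only [hs, TrivSqZeroExt.fst_mul, TrivSqZeroExt.fst_add, TrivSqZeroExt.snd_add,
    TrivSqZeroExt.fst_inl, TrivSqZeroExt.snd_inl, TrivSqZeroExt.fst_smul,
    TrivSqZeroExt.snd_smul, DualNumber.fst_eps, DualNumber.snd_eps]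
  simp only [Algebra.smul_def, map_mul, map_ofNat]
  ring

lemma snd_eps_inl {R : Type u} [CommRing R] (b : R) :
    TrivSqZeroExt.snd ((DualNumber.eps : DualNumber R) * TrivSqZeroExt.inl b) = b := by
  simp

variable {d n : ℕ}

/-- The component of degree `i - 1`. -/
noncomputable def degm (Δ : Finset (Finset (Fin n))) (c : Fin n → Fin d) :
    ℕ → Submodule K (A K Δ c)
  | 0 => ⊥
  | i + 1 => deg K Δ c i

/-- The algebra of a suspension. -/
lemma susp_data (Δ : Finset (Finset (Fin n))) (c : Fin n → Fin d) :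
    ∃ (ι : A K Δ c →ₐ[K] A K (join Δ S0) (jc c cS))
      (φ : A K (join Δ S0) (jc c cS) →ₐ[K] DualNumber (A K Δ c))
      (τ : A K (join Δ S0) (jc c cS)), τ * τ = 0 ∧ (∀ r, φ (ι r) = TrivSqZeroExt.inl r) ∧
      φ τ = DualNumber.eps ∧ τ ∈ deg K (join Δ S0) (jc c cS) 1 ∧
      (∀ i, ∀ r ∈ deg K Δ c i, ι r ∈ deg K (join Δ S0) (jc c cS) i) ∧
      (∀ l ∈ deg K (join Δ S0) (jc c cS) 1, ∃ ℓ ∈ deg K Δ c 1, ∃ a : K, l = ι ℓ + a • τ) ∧
      (∀ i, ∀ z ∈ deg K (join Δ S0) (jc c cS) (i + 1),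
        TrivSqZeroExt.fst (φ z) ∈ deg K Δ c (i + 1) ∧ TrivSqZeroExt.snd (φ z) ∈ deg K Δ c i) := by
  obtain ⟨ι, hι⟩ := exists_left K Δ S0 c cS
  obtain ⟨ι', hι'⟩ := exists_right K Δ S0 c cS
  obtain ⟨β, hβ0, hβ1⟩ := beta (K := K) (R := A K Δ c)
  obtain ⟨φ, hφ1, hφ2⟩ := join_lift (B := DualNumber (A K Δ c)) K Δ S0 c cS
    (TrivSqZeroExt.inlAlgHom K (A K Δ c) (A K Δ c)) β
  have hφι : ∀ r, φ (ι r) = TrivSqZeroExt.inl r := by
    have hcomp : φ.comp ι = TrivSqZeroExt.inlAlgHom K (A K Δ c) (A K Δ c) := by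
      apply Ideal.Quotient.algHom_ext
      apply MvPolynomial.algHom_ext
      intro v
      show φ (ι (gx K Δ c v)) = _
      rw [hι, hφ1]
      rfl
    intro r
    exact DFunLike.congr_fun hcomp r
  set τ := gx K (join Δ S0) (jc c cS) (Fin.natAdd n 0) with hτ
  have hτ' : ι' (gx K S0 cS 0) = τ := hι' 0
  have hτ1 : gx K (join Δ S0) (jc c cS) (Fin.natAdd n 1) = -τ := by
    rw [← hι' 1, ← hτ', ← map_neg]
    congr 1
    exact (neg_eq_of_add_eq_zero_right (S0_add K)).symm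
  have hττ : τ * τ = 0 := by
    have h := congrArg ι' (S0_mul K)
    rw [map_mul, map_zero, hτ', hι' 1, hτ1] at h
    linear_combination -h
  have hφτ : φ τ = DualNumber.eps := by rw [hτ, hφ2, hβ0]
  have hιdeg : ∀ i, ∀ r ∈ deg K Δ c i, ι r ∈ deg K (join Δ S0) (jc c cS) i :=
    hom_deg K ι (fun v => by rw [hι]; exact gx_mem K _ _ _)
  refine ⟨ι, φ, τ, hττ, hφι, hφτ, gx_mem K _ _ _, hιdeg, ?_, ?_⟩
  · intro l hl
    obtain ⟨a, rfl⟩ := deg_one_gen K _ _ l hl
    refine ⟨∑ v, a (Fin.castAdd 2 v) • gx K Δ c v, ?_, a (Fin.natAdd n 0) - a (Fin.natAdd n 1), ?_⟩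
    · apply Submodule.sum_mem
      intro v _
      exact Submodule.smul_mem _ _ (gx_mem K Δ c v)
    · rw [Fin.sum_univ_add, map_sum, Fin.sum_univ_two, hτ1, ← hτ]
      congr 1
      · apply Finset.sum_congr rfl
        intro v _
        rw [map_smul, hι]
      · rw [sub_smul, smul_neg, sub_eq_add_neg]
  · have key : ∀ i, ∀ z ∈ deg K (join Δ S0) (jc c cS) i,
        TrivSqZeroExt.fst (φ z) ∈ deg K Δ c i ∧
        TrivSqZeroExt.snd (φ z) ∈ degm K Δ c i := by
      apply deg_induction K (join Δ S0) (jc c cS) (fun i z =>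
        TrivSqZeroExt.fst (φ z) ∈ deg K Δ c i ∧
        TrivSqZeroExt.snd (φ z) ∈ degm K Δ c i)
      · intro z hz
        obtain ⟨a, rfl⟩ := deg_zero_gen K _ _ z hz
        rw [φ.commutes]
        have e : algebraMap K (DualNumber (A K Δ c)) a = TrivSqZeroExt.inl (algebraMap K _ a) := rfl
        rw [e, TrivSqZeroExt.fst_inl, TrivSqZeroExt.snd_inl]
        refine ⟨?_, Submodule.zero_mem _⟩
        rw [Algebra.algebraMap_eq_smul_one]
        exact Submodule.smul_mem _ _ (one_mem_deg K Δ c)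
      · intro i v z _ hz
        have hs : ∀ p q : DualNumber (A K Δ c), TrivSqZeroExt.snd (p * q) =
            TrivSqZeroExt.fst p * TrivSqZeroExt.snd q +
            TrivSqZeroExt.fst q * TrivSqZeroExt.snd p := by
          intro p q
          rw [TrivSqZeroExt.snd_mul]
          simp [mul_comm]
        have hdeg : TrivSqZeroExt.fst (φ (gx K (join Δ S0) (jc c cS) v)) ∈ deg K Δ c 1 ∧
            ∃ a : K, TrivSqZeroExt.snd (φ (gx K (join Δ S0) (jc c cS) v)) =
              algebraMap K (A K Δ c) a := by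
          refine Fin.addCases (fun v => ?_) (fun v => ?_) v
          · rw [hφ1]
            refine ⟨?_, 0, ?_⟩
            · show TrivSqZeroExt.fst (TrivSqZeroExt.inl (gx K Δ c v)) ∈ _
              rw [TrivSqZeroExt.fst_inl]
              exact gx_mem K Δ c v
            · show TrivSqZeroExt.snd (TrivSqZeroExt.inl (gx K Δ c v)) = _
              rw [TrivSqZeroExt.snd_inl, map_zero]
          · rw [hφ2]
            have hv : ∀ v : Fin 2, v = 0 ∨ v = 1 := by decide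
            rcases hv v with rfl | rfl
            · rw [hβ0, DualNumber.fst_eps, DualNumber.snd_eps]
              exact ⟨Submodule.zero_mem _, 1, (map_one _).symm⟩
            · rw [hβ1, TrivSqZeroExt.fst_neg, TrivSqZeroExt.snd_neg, DualNumber.fst_eps,
                DualNumber.snd_eps, neg_zero]
              exact ⟨Submodule.zero_mem _, -1, by rw [map_neg, map_one]⟩
        obtain ⟨hd1, a, hd2⟩ := hdeg
        rw [map_mul, hs, hd2, TrivSqZeroExt.fst_mul]
        constructor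
        · rw [add_comm]
          exact deg_mul K Δ c 1 i _ _ hd1 hz.1
        · show _ ∈ deg K Δ c i
          apply Submodule.add_mem
          · cases i with
            | zero =>
              have h0 : TrivSqZeroExt.snd (φ z) = 0 := (Submodule.mem_bot K).1 hz.2
              rw [h0, mul_zero]
              exact Submodule.zero_mem _
            | succ i =>
              rw [add_comm i 1]
              exact deg_mul K Δ c 1 i _ _ hd1 hz.2
          · rw [mul_comm, ← Algebra.smul_def]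
            exact Submodule.smul_mem _ _ hz.1
      · intro i z z' h1 h2
        rw [map_add, TrivSqZeroExt.fst_add, TrivSqZeroExt.snd_add]
        exact ⟨Submodule.add_mem _ h1.1 h2.1, Submodule.add_mem _ h1.2 h2.2⟩
      · intro i a z h1
        rw [map_smul, TrivSqZeroExt.fst_smul, TrivSqZeroExt.snd_smul]
        exact ⟨Submodule.smul_mem _ _ h1.1, Submodule.smul_mem _ _ h1.2⟩
      · intro i
        rw [map_zero, TrivSqZeroExt.fst_zero, TrivSqZeroExt.snd_zero]
        exact ⟨Submodule.zero_mem _, Submodule.zero_mem _⟩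
    intro i z hz
    exact key (i + 1) z hz

/-- Multiplication by the `j`-th power of a linear form is never injective in degree `k`. -/
def NInj (Δ : Finset (Finset (Fin n))) (c : Fin n → Fin d) (k j : ℕ) : Prop :=
  ∀ l ∈ deg K Δ c 1, ∃ y ∈ deg K Δ c k, y ≠ 0 ∧ l ^ j * y = 0

/-- Multiplication by the `j`-th power of a linear form is never onto from degree `m`. -/
def NSurj (Δ : Finset (Finset (Fin n))) (c : Fin n → Fin d) (m j : ℕ) : Prop :=
  ∀ l ∈ deg K Δ c 1, ∃ b ∈ deg K Δ c (m + j), ∀ y ∈ deg K Δ c m, l ^ j * y ≠ b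

lemma not_WLP_of {Δ : Finset (Finset (Fin n))} {c : Fin n → Fin d} {k : ℕ}
    (h1 : NInj K Δ c k 1) (h2 : NSurj K Δ c k 1) : ¬ HasWLP K Δ c := by
  rintro ⟨l, hl, h⟩
  rcases h k with h3 | h3
  · obtain ⟨y, hy, hy0, hly⟩ := h1 l hl
    rw [pow_one] at hly
    exact hy0 (h3 y hy hly)
  · obtain ⟨b, hb, hne⟩ := h2 l hl
    obtain ⟨y, hy, hly⟩ := h3 b hb
    apply hne y hy
    rw [pow_one, hly]

lemma not_SLP_of {Δ : Finset (Finset (Fin n))} {c : Fin n → Fin d} {k j : ℕ} (hj : 1 ≤ j)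
    (h1 : NInj K Δ c k j) (h2 : NSurj K Δ c k j) : ¬ HasSLP K Δ c := by
  rintro ⟨l, hl, h⟩
  rcases h k j hj with h3 | h3
  · obtain ⟨y, hy, hy0, hly⟩ := h1 l hl
    exact hy0 (h3 y hy hly)
  · obtain ⟨b, hb, hne⟩ := h2 l hl
    obtain ⟨y, hy, hly⟩ := h3 b hb
    exact hne y hy hly

variable {K}
variable {Δ : Finset (Finset (Fin n))} {c : Fin n → Fin d}

lemma ninj_two {k : ℕ} (h : NInj K Δ c k 2) : NInj K (join Δ S0) (jc c cS) (k + 1) 1 := by
  obtain ⟨ι, φ, τ, hττ, hφι, hφτ, hτ, hιdeg, hlin, hφdeg⟩ := susp_data K Δ c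
  intro l hl
  obtain ⟨ℓ, hℓ, a, rfl⟩ := hlin l hl
  obtain ⟨y, hy, hy0, h2⟩ := h ℓ hℓ
  obtain ⟨z, hz, hz0, hzl⟩ := abs_inj ι φ τ hττ hφι hφτ (deg K Δ c k) (deg K Δ c (k + 1))
    (deg K (join Δ S0) (jc c cS) (k + 1)) (hιdeg (k + 1)) (fun r hr => by
      rw [add_comm k 1]
      exact deg_mul K _ _ 1 k _ _ hτ (hιdeg k r hr)) ℓ (fun r hr => by
      rw [add_comm k 1]
      exact deg_mul K Δ c 1 k _ _ hℓ hr) a y hy hy0 h2
  exact ⟨z, hz, hz0, by rw [pow_one]; exact hzl⟩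

lemma nsurj_two {m : ℕ} (h : NSurj K Δ c m 2) : NSurj K (join Δ S0) (jc c cS) (m + 1) 1 := by
  obtain ⟨ι, φ, τ, hττ, hφι, hφτ, hτ, hιdeg, hlin, hφdeg⟩ := susp_data K Δ c
  intro l hl
  obtain ⟨ℓ, hℓ, a, rfl⟩ := hlin l hl
  obtain ⟨b, hb, h2⟩ := h ℓ hℓ
  obtain ⟨z, hz, h3⟩ := abs_surj ι φ τ hφι hφτ (deg K Δ c m) (deg K Δ c (m + 1))
    (deg K Δ c (m + 2)) (deg K (join Δ S0) (jc c cS) (m + 1))
    (deg K (join Δ S0) (jc c cS) (m + 2)) (hιdeg (m + 2)) (fun r hr => by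
      have := deg_mul K _ _ 1 (m + 1) _ _ hτ (hιdeg (m + 1) r hr)
      rwa [add_comm 1 (m + 1)] at this) (fun z hz => hφdeg m z hz) ℓ a b hb h2
  refine ⟨z, hz, fun y hy => ?_⟩
  rw [pow_one]
  exact h3 y hy

lemma ninj_one {k : ℕ} (h : NInj K Δ c k 1) : NInj K (join Δ S0) (jc c cS) k 2 := by
  obtain ⟨ι, φ, τ, hττ, hφι, hφτ, hτ, hιdeg, hlin, hφdeg⟩ := susp_data K Δ c
  intro l hl
  obtain ⟨ℓ, hℓ, a, rfl⟩ := hlin l hl
  obtain ⟨y, hy, hy0, h2⟩ := h ℓ hℓ
  rw [pow_one] at h2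
  refine ⟨ι y, hιdeg k y hy, ?_, ?_⟩
  · intro h3
    have h4 := hφι y
    rw [h3, map_zero] at h4
    apply hy0
    have h5 := congrArg TrivSqZeroExt.fst h4
    rw [TrivSqZeroExt.fst_zero, TrivSqZeroExt.fst_inl] at h5
    exact h5.symm
  · have h3 : ι ℓ * ι y = 0 := by rw [← map_mul, h2, map_zero]
    have h4 : (a • τ) * (a • τ) = 0 := by
      rw [smul_mul_assoc, mul_smul_comm, hττ, smul_zero, smul_zero]
    calc (ι ℓ + a • τ) ^ 2 * ι y = (ι ℓ + 2 * (a • τ)) * (ι ℓ * ι y) + (a • τ) * (a • τ) * ι y := by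
          ring
      _ = 0 := by rw [h3, h4, mul_zero, zero_mul, add_zero]

lemma nsurj_one {m : ℕ} (h : NSurj K Δ c (m + 1) 1) :
    NSurj K (join Δ S0) (jc c cS) (m + 1) 2 := by
  obtain ⟨ι, φ, τ, hττ, hφι, hφτ, hτ, hιdeg, hlin, hφdeg⟩ := susp_data K Δ c
  intro l hl
  obtain ⟨ℓ, hℓ, a, rfl⟩ := hlin l hl
  obtain ⟨b, hb, h2⟩ := h ℓ hℓ
  refine ⟨τ * ι b, ?_, ?_⟩
  · have := deg_mul K _ _ 1 (m + 1 + 1) _ _ hτ (hιdeg _ b hb)
    rwa [add_comm 1 (m + 1 + 1)] at this
  · intro z hz heq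
    obtain ⟨hz1, hz2⟩ := hφdeg m z hz
    have h3 := congrArg (fun q => TrivSqZeroExt.snd (φ q)) heq
    simp only [map_mul, map_pow, map_add, map_smul, hφι, hφτ] at h3
    rw [snd_two, snd_eps_inl] at h3
    apply h2 (ℓ * TrivSqZeroExt.snd (φ z) + (2 * a) • TrivSqZeroExt.fst (φ z))
    · apply Submodule.add_mem
      · rw [add_comm m 1]
        exact deg_mul K Δ c 1 m _ _ hℓ hz2
      · exact Submodule.smul_mem _ _ hz1
    · rw [pow_one]
      exact h3

end

end Pool.Agent.Y991.LF
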