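import Pool.Agent.Results.MP_5d3ebc_al.SLPFails

set_option autoImplicit false

/-!
# Joins of spheres (topology)
-/

namespace Pool.Agent.Y991.LF

open Pool.Agent.Results.MP_5d3ebc_al.SLPFails
open Filter Topology

/-- The support of a vector. -/
noncomputable def supp {n : ℕ} (u : Fin n → ℝ) : Finset (Fin n) :=
  Finset.univ.filter (fun i => u i ≠ 0)

lemma mem_supp {n : ℕ} (u : Fin n → ℝ) (i : Fin n) : i ∈ supp u ↔ u i ≠ 0 := by
  simp [supp]

lemma mem_realization {n : ℕ} (Δ : Finset (Finset (Fin n))) (x : Fin n → ℝ) :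
    x ∈ realization Δ ↔ (∀ i, 0 ≤ x i) ∧ ∑ i, x i = 1 ∧ supp x ∈ Δ := by
  constructor
  · rintro ⟨h0, h1, s, hs, hsx⟩
    refine ⟨h0, h1, ?_⟩
    have : supp x = s := by
      ext i
      rw [mem_supp, hsx]
    rwa [this]
  · rintro ⟨h0, h1, h2⟩
    exact ⟨h0, h1, supp x, h2, fun i => mem_supp x i⟩

lemma supp_smul {n : ℕ} (t : ℝ) (ht : t ≠ 0) (u : Fin n → ℝ) : supp (t • u) = supp u := by
  ext i
  rw [mem_supp, mem_supp, Pi.smul_apply, smul_eq_mul, mul_ne_zero_iff]
  exact ⟨fun h => h.2, fun h => ⟨ht, h⟩⟩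

/-- A parametrisation of the cone over a complex by a normed space. -/
structure Cone (E : Type) [NormedAddCommGroup E] [NormedSpace ℝ E] {n : ℕ}
    (Δ : Finset (Finset (Fin n))) where
  G : E → Fin n → ℝ
  cont : Continuous G
  inj : Function.Injective G
  nonneg : ∀ v i, 0 ≤ G v i
  mem : ∀ v, supp (G v) ∈ Δ
  sum : ∀ v, ∑ i, G v i = ‖v‖
  hom : ∀ (t : ℝ) (v : E), 0 ≤ t → G (t • v) = t • G v
  surj : ∀ u : Fin n → ℝ, (∀ i, 0 ≤ u i) → supp u ∈ Δ → ∃ v, G v = u

/-- The cone over a sphere. -/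
lemma exists_cone {d n : ℕ} (Δ : Finset (Finset (Fin n))) (h : IsSphere (d + 1) Δ) :
    Nonempty (Cone (EuclideanSpace ℝ (Fin (d + 1))) Δ) := by
  classical
  obtain ⟨hc, ⟨h⟩⟩ := h
  let E := EuclideanSpace ℝ (Fin (d + 1))
  let k := h.symm
  let K0 : E → Fin n → ℝ := fun v => if hv : v ∈ Metric.sphere (0 : E) 1 then
    ((k ⟨v, hv⟩ : realization Δ) : Fin n → ℝ) else 0
  have hK0 : ∀ (v : E) (hv : v ∈ Metric.sphere (0 : E) 1), K0 v = (k ⟨v, hv⟩ : realization Δ) :=
    fun v hv => dif_pos hv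
  have hr : ∀ v : E, v ≠ 0 → ‖v‖⁻¹ • v ∈ Metric.sphere (0 : E) 1 := by
    intro v hv
    rw [mem_sphere_zero_iff_norm, norm_smul, norm_inv, norm_norm,
      inv_mul_cancel₀ (norm_ne_zero_iff.2 hv)]
  have hmem : ∀ v ∈ Metric.sphere (0 : E) 1, K0 v ∈ realization Δ := by
    intro v hv
    rw [hK0 v hv]
    exact (k ⟨v, hv⟩).2
  have hmem' : ∀ v ∈ Metric.sphere (0 : E) 1, (∀ i, 0 ≤ K0 v i) ∧ ∑ i, K0 v i = 1 ∧
      supp (K0 v) ∈ Δ := fun v hv => (mem_realization Δ _).1 (hmem v hv)
  have hcont : ContinuousOn K0 (Metric.sphere (0 : E) 1) := by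
    rw [continuousOn_iff_continuous_restrict]
    have : (fun v : Metric.sphere (0 : E) 1 => K0 v) =
        fun v => ((k v : realization Δ) : Fin n → ℝ) := by
      funext v
      exact hK0 v.1 v.2
    change Continuous (fun v : Metric.sphere (0 : E) 1 => K0 v)
    rw [this]
    exact continuous_subtype_val.comp k.continuous
  let G : E → Fin n → ℝ := fun v => ‖v‖ • K0 (‖v‖⁻¹ • v)
  have hG0 : G 0 = 0 := by simp [G]
  have hsum : ∀ v, ∑ i, G v i = ‖v‖ := by
    intro v
    by_cases hv : v = 0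
    · rw [hv, hG0]; simp
    · have := (hmem' _ (hr v hv)).2.1
      simp only [G, Pi.smul_apply, smul_eq_mul, ← Finset.mul_sum, this, mul_one]
  have hnn : ∀ v i, 0 ≤ G v i := by
    intro v i
    by_cases hv : v = 0
    · rw [hv, hG0]; simp
    · exact mul_nonneg (norm_nonneg _) ((hmem' _ (hr v hv)).1 i)
  have hempty : (∅ : Finset (Fin n)) ∈ Δ := by
    obtain ⟨e, he⟩ := exists_ne (0 : E)
    exact hc.1 _ (hmem' _ (hr e he)).2.2 _ (Finset.empty_subset _)
  have hhom : ∀ (t : ℝ) (v : E), 0 ≤ t → G (t • v) = t • G v := by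
    intro t v ht
    rcases ht.eq_or_lt with rfl | ht
    · rw [zero_smul, zero_smul, hG0]
    · by_cases hv : v = 0
      · rw [hv, smul_zero, hG0, smul_zero]
      · simp only [G]
        have e1 : ‖t • v‖ = t * ‖v‖ := by rw [norm_smul, Real.norm_of_nonneg ht.le]
        have e2 : ‖t • v‖⁻¹ • (t • v) = ‖v‖⁻¹ • v := by
          rw [e1, smul_smul]
          congr 1
          have := norm_ne_zero_iff.2 hv
          field_simp
        rw [e2, e1, smul_smul]
  refine ⟨⟨G, ?_, ?_, hnn, ?_, hsum, hhom, ?_⟩⟩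
  · rw [continuous_iff_continuousAt]
    intro v
    by_cases hv : v = 0
    · subst hv
      rw [ContinuousAt, hG0, tendsto_pi_nhds]
      intro i
      refine squeeze_zero_norm (a := fun v => ‖v‖) ?_ ?_
      · intro v
        rw [Real.norm_of_nonneg (hnn v i), ← hsum v]
        exact Finset.single_le_sum (f := fun i => G v i) (fun j _ => hnn v j) (Finset.mem_univ i)
      · have : Continuous (fun v : E => ‖v‖) := continuous_norm
        simpa using this.tendsto (0 : E)
    · have h1 : ContinuousOn G {v | v ≠ 0} := by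
        apply ContinuousOn.smul continuous_norm.continuousOn
        have h2 : ContinuousOn (fun v : E => ‖v‖⁻¹ • v) {v | v ≠ 0} := by
          have h3 : ContinuousOn (fun v : E => ‖v‖⁻¹) {v | v ≠ 0} :=
            continuous_norm.continuousOn.inv₀ (fun v hv => norm_ne_zero_iff.2 hv)
          exact h3.smul continuousOn_id
        exact hcont.comp h2 (fun v hv => hr v hv)
      exact h1.continuousAt (isOpen_ne.mem_nhds hv)
  · intro v w hvw
    have hn : ‖v‖ = ‖w‖ := by rw [← hsum, ← hsum, hvw]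
    by_cases hv : v = 0
    · rw [hv, norm_zero] at hn
      rw [hv, norm_eq_zero.1 hn.symm]
    · have hw : w ≠ 0 := by
        rintro rfl
        rw [norm_zero, norm_eq_zero] at hn
        exact hv hn
      have h1 : ‖v‖ • K0 (‖v‖⁻¹ • v) = ‖v‖ • K0 (‖w‖⁻¹ • w) := by
        conv_rhs => rw [hn]
        exact hvw
      have h2 := smul_right_injective (Fin n → ℝ) (norm_ne_zero_iff.2 hv) h1
      rw [hK0 _ (hr v hv), hK0 _ (hr w hw)] at h2
      have h3 := k.injective (Subtype.ext h2)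
      have h4 : ‖v‖⁻¹ • v = ‖w‖⁻¹ • w := congrArg Subtype.val h3
      rw [← hn] at h4
      exact smul_right_injective E (inv_ne_zero (norm_ne_zero_iff.2 hv)) h4
  · intro v
    by_cases hv : v = 0
    · rw [hv, hG0]
      have : supp (0 : Fin n → ℝ) = ∅ := by
        ext i
        simp [mem_supp]
      rw [this]
      exact hempty
    · simp only [G]
      rw [supp_smul _ (norm_ne_zero_iff.2 hv)]
      exact (hmem' _ (hr v hv)).2.2
  · intro u hu hs
    by_cases hu0 : ∑ i, u i = 0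
    · refine ⟨0, ?_⟩
      rw [hG0]
      ext i
      have := (Finset.sum_eq_zero_iff_of_nonneg (fun i _ => hu i)).1 hu0 i (Finset.mem_univ i)
      rw [this]
      rfl
    · have hpos : 0 < ∑ i, u i :=
        lt_of_le_of_ne (Finset.sum_nonneg fun i _ => hu i) (Ne.symm hu0)
      set σ := ∑ i, u i with hσ
      have hm : σ⁻¹ • u ∈ realization Δ := by
        rw [mem_realization]
        refine ⟨fun i => mul_nonneg (inv_nonneg.2 hpos.le) (hu i), ?_, ?_⟩
        · simp only [Pi.smul_apply, smul_eq_mul, ← Finset.mul_sum]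
          exact inv_mul_cancel₀ hu0
        · rw [supp_smul _ (inv_ne_zero hu0)]
          exact hs
      set p := h ⟨σ⁻¹ • u, hm⟩ with hp
      have hpn : ‖(p : E)‖ = 1 := mem_sphere_zero_iff_norm.1 p.2
      refine ⟨σ • (p : E), ?_⟩
      rw [hhom _ _ hpos.le]
      simp only [G]
      rw [hpn, inv_one, one_smul, one_smul, hK0 _ p.2]
      have : k ⟨(p : E), p.2⟩ = ⟨σ⁻¹ • u, hm⟩ := by
        have e : (⟨(p : E), p.2⟩ : Metric.sphere (0 : E) 1) = p := rfl
        rw [e, hp]
        exact h.symm_apply_apply _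
      rw [this, smul_smul, mul_inv_cancel₀ hu0, one_smul]

end Pool.Agent.Y991.LF
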