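import Pool.Agent.Y991.LF.Top1

set_option autoImplicit false

/-!
# Joins of spheres (topology)
-/

namespace Pool.Agent.Y991.LF

open Pool.Agent.Results.MP_5d3ebc_al.SLPFails
open Filter Topology

/-! ### The join -/

/-- The part of a set of vertices in the first complex. -/
def pl {n m : ℕ} (s : Finset (Fin (n + m))) : Finset (Fin n) :=
  Finset.univ.filter (fun v => Fin.castAdd m v ∈ s)

/-- The part of a set of vertices in the second complex. -/
def pr {n m : ℕ} (s : Finset (Fin (n + m))) : Finset (Fin m) :=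
  Finset.univ.filter (fun v => Fin.natAdd n v ∈ s)

/-- The join of two complexes. -/
def join {n m : ℕ} (Δ : Finset (Finset (Fin n))) (Γ : Finset (Finset (Fin m))) :
    Finset (Finset (Fin (n + m))) :=
  Finset.univ.filter (fun s => pl s ∈ Δ ∧ pr s ∈ Γ)

lemma mem_join {n m : ℕ} (Δ : Finset (Finset (Fin n))) (Γ : Finset (Finset (Fin m)))
    (s : Finset (Fin (n + m))) : s ∈ join Δ Γ ↔ pl s ∈ Δ ∧ pr s ∈ Γ := by
  simp [join]

lemma mem_pl {n m : ℕ} (s : Finset (Fin (n + m))) (v : Fin n) :
    v ∈ pl s ↔ Fin.castAdd m v ∈ s := by simp [pl]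

lemma mem_pr {n m : ℕ} (s : Finset (Fin (n + m))) (v : Fin m) :
    v ∈ pr s ↔ Fin.natAdd n v ∈ s := by simp [pr]

lemma cast_ne_nat {n m : ℕ} (v : Fin n) (w : Fin m) : Fin.castAdd m v ≠ Fin.natAdd n w := by
  intro h
  have h1 := congrArg Fin.val h
  rw [Fin.val_castAdd, Fin.val_natAdd] at h1
  have := v.2
  omega

lemma isComplex_join {n m : ℕ} (Δ : Finset (Finset (Fin n))) (Γ : Finset (Finset (Fin m)))
    (h1 : IsComplex Δ) (h2 : IsComplex Γ) (e1 : ∅ ∈ Δ) (e2 : ∅ ∈ Γ) : IsComplex (join Δ Γ) := by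
  constructor
  · intro s hs t ht
    rw [mem_join] at hs ⊢
    refine ⟨h1.1 _ hs.1 _ ?_, h2.1 _ hs.2 _ ?_⟩
    · intro v hv
      rw [mem_pl] at hv ⊢
      exact ht hv
    · intro v hv
      rw [mem_pr] at hv ⊢
      exact ht hv
  · intro v
    rw [mem_join]
    refine Fin.addCases (fun v => ?_) (fun v => ?_) v
    · have a1 : pl {Fin.castAdd m v} = {v} := by
        ext w
        rw [mem_pl, Finset.mem_singleton, Finset.mem_singleton, Fin.castAdd_inj]
      have a2 : pr {Fin.castAdd m v} = (∅ : Finset (Fin m)) := by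
        ext w
        rw [mem_pr, Finset.mem_singleton]
        have : Fin.natAdd n w ≠ Fin.castAdd m v := (cast_ne_nat v w).symm
        simp [this]
      rw [a1, a2]
      exact ⟨h1.2 v, e2⟩
    · have a1 : pr {Fin.natAdd n v} = {v} := by
        ext w
        rw [mem_pr, Finset.mem_singleton, Finset.mem_singleton, Fin.natAdd_inj]
      have a2 : pl {Fin.natAdd n v} = (∅ : Finset (Fin n)) := by
        ext w
        rw [mem_pl, Finset.mem_singleton]
        have : Fin.castAdd m w ≠ Fin.natAdd n v := cast_ne_nat w v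
        simp [this]
      rw [a1, a2]
      exact ⟨e1, h2.2 v⟩

lemma supp_append {n m : ℕ} (u : Fin n → ℝ) (w : Fin m → ℝ) :
    pl (supp (Fin.append u w)) = supp u ∧ pr (supp (Fin.append u w)) = supp w := by
  constructor
  · ext v
    rw [mem_pl, mem_supp, mem_supp, Fin.append_left]
  · ext v
    rw [mem_pr, mem_supp, mem_supp, Fin.append_right]

/-- The realization of a join is a sphere. -/
lemma join_homeo {n m d e : ℕ} (Δ : Finset (Finset (Fin n))) (Γ : Finset (Finset (Fin m)))
    (C : Cone (EuclideanSpace ℝ (Fin d)) Δ) (C' : Cone (EuclideanSpace ℝ (Fin e)) Γ) :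
    Nonempty (realization (join Δ Γ) ≃ₜ
      Metric.sphere (0 : EuclideanSpace ℝ (Fin (d + e))) 1) := by
  let E := EuclideanSpace ℝ (Fin (d + e))
  let L : E ≃L[ℝ] (EuclideanSpace ℝ (Fin d) × EuclideanSpace ℝ (Fin e)) :=
    ContinuousLinearEquiv.ofFinrankEq (by
      rw [Module.finrank_prod, finrank_euclideanSpace_fin, finrank_euclideanSpace_fin,
        finrank_euclideanSpace_fin])
  let g : E → ℝ := fun w => ‖(L w).1‖ + ‖(L w).2‖
  have hgc : Continuous g := by fun_prop
  have hg : ∀ w, w ≠ 0 → 0 < g w := by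
    intro w hw
    have h1 : L w ≠ 0 := by
      intro h
      exact hw (L.map_eq_zero_iff.1 h)
    have h2 : 0 ≤ ‖(L w).1‖ := norm_nonneg _
    have h3 : 0 ≤ ‖(L w).2‖ := norm_nonneg _
    rcases h2.eq_or_lt with h4 | h4
    · rcases h3.eq_or_lt with h5 | h5
      · exfalso
        apply h1
        exact Prod.ext (norm_eq_zero.1 h4.symm) (norm_eq_zero.1 h5.symm)
      · exact add_pos_of_nonneg_of_pos h2 h5
    · exact add_pos_of_pos_of_nonneg h4 h3
  let F : E → Fin (n + m) → ℝ := fun w => (g w)⁻¹ • Fin.append (C.G (L w).1) (C'.G (L w).2)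
  have hne : ∀ w : Metric.sphere (0 : E) 1, (w : E) ≠ 0 := by
    intro w h
    have := mem_sphere_zero_iff_norm.1 w.2
    rw [h, norm_zero] at this
    exact zero_ne_one this
  have happ : ∀ w, ∀ i, 0 ≤ Fin.append (C.G (L w).1) (C'.G (L w).2) i := by
    intro w i
    refine Fin.addCases (fun v => ?_) (fun v => ?_) i
    · rw [Fin.append_left]
      exact C.nonneg _ _
    · rw [Fin.append_right]
      exact C'.nonneg _ _
  have hFm : ∀ w : Metric.sphere (0 : E) 1, F w ∈ realization (join Δ Γ) := by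
    intro w
    have hp := hg w (hne w)
    rw [mem_realization]
    refine ⟨fun i => mul_nonneg (inv_nonneg.2 hp.le) (happ w i), ?_, ?_⟩
    · simp only [F, Pi.smul_apply, smul_eq_mul, ← Finset.mul_sum]
      rw [Fin.sum_univ_add]
      simp only [Fin.append_left, Fin.append_right]
      rw [C.sum, C'.sum]
      exact inv_mul_cancel₀ hp.ne'
    · simp only [F]
      rw [supp_smul _ (inv_ne_zero hp.ne'), mem_join, (supp_append _ _).1, (supp_append _ _).2]
      exact ⟨C.mem _, C'.mem _⟩
  let f : Metric.sphere (0 : E) 1 → realization (join Δ Γ) := fun w => ⟨F w, hFm w⟩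
  have hFcont : ContinuousOn F {w | w ≠ 0} := by
    have c1 : ContinuousOn (fun w : E => (g w)⁻¹) {w | w ≠ 0} :=
      hgc.continuousOn.inv₀ (fun w hw => (hg w hw).ne')
    refine c1.smul (g := fun w => Fin.append (C.G (L w).1) (C'.G (L w).2)) ?_
    · apply Continuous.continuousOn
      rw [continuous_pi_iff]
      intro i
      refine Fin.addCases (fun v => ?_) (fun v => ?_) i
      · simp only [Fin.append_left]
        exact (continuous_apply v).comp (C.cont.comp (continuous_fst.comp L.continuous))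
      · simp only [Fin.append_right]
        exact (continuous_apply v).comp (C'.cont.comp (continuous_snd.comp L.continuous))
  have hfc : Continuous f := by
    apply Continuous.subtype_mk
    rw [← continuousOn_univ]
    exact hFcont.comp continuous_subtype_val.continuousOn (fun w _ => hne w)
  have hsplit : ∀ w : E, w ≠ 0 → F w = Fin.append (C.G (L ((g w)⁻¹ • w)).1)
      (C'.G (L ((g w)⁻¹ • w)).2) := by
    intro w hw
    have hp := (inv_pos.2 (hg w hw)).le
    have e1 : (L ((g w)⁻¹ • w)).1 = (g w)⁻¹ • (L w).1 := by rw [map_smul]; rfl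
    have e2 : (L ((g w)⁻¹ • w)).2 = (g w)⁻¹ • (L w).2 := by rw [map_smul]; rfl
    rw [e1, e2, C.hom _ _ hp, C'.hom _ _ hp]
    ext i
    refine Fin.addCases (fun v => ?_) (fun v => ?_) i
    · simp [F]
    · simp [F]
  have happinj : ∀ (a a' : Fin n → ℝ) (b b' : Fin m → ℝ), Fin.append a b = Fin.append a' b' →
      a = a' ∧ b = b' := by
    intro a a' b b' h
    constructor
    · ext v
      have := congrFun h (Fin.castAdd m v)
      rwa [Fin.append_left, Fin.append_left] at this
    · ext v
      have := congrFun h (Fin.natAdd n v)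
      rwa [Fin.append_right, Fin.append_right] at this
  have hinj : Function.Injective f := by
    intro w w' h
    have h1 : F w = F w' := congrArg Subtype.val h
    rw [hsplit w (hne w), hsplit w' (hne w')] at h1
    obtain ⟨h2, h3⟩ := happinj _ _ _ _ h1
    have h4 : L ((g w)⁻¹ • (w : E)) = L ((g w')⁻¹ • (w' : E)) := Prod.ext (C.inj h2) (C'.inj h3)
    have h5 := L.injective h4
    have h6 := congrArg (fun z => ‖z‖) h5
    simp only [norm_smul, norm_inv, Real.norm_of_nonneg (hg w (hne w)).le,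
      Real.norm_of_nonneg (hg w' (hne w')).le, mem_sphere_zero_iff_norm.1 w.2,
      mem_sphere_zero_iff_norm.1 w'.2, mul_one] at h6
    rw [← h6] at h5
    exact Subtype.ext (smul_right_injective E (inv_ne_zero (hg w (hne w)).ne') h5)
  have hsurj : Function.Surjective f := by
    rintro ⟨x, hx⟩
    rw [mem_realization] at hx
    obtain ⟨h0, h1, h2⟩ := hx
    rw [mem_join] at h2
    obtain ⟨v, hv⟩ := C.surj (fun i => x (Fin.castAdd m i)) (fun i => h0 _) (by
      convert h2.1 using 1
      ext i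
      rw [mem_pl, mem_supp, mem_supp])
    obtain ⟨v', hv'⟩ := C'.surj (fun i => x (Fin.natAdd n i)) (fun i => h0 _) (by
      convert h2.2 using 1
      ext i
      rw [mem_pr, mem_supp, mem_supp])
    set w0 : E := L.symm (v, v') with hw0
    have hL : L w0 = (v, v') := L.apply_symm_apply _
    have hg1 : g w0 = 1 := by
      simp only [g]
      rw [hL, ← C.sum, ← C'.sum, hv, hv', ← h1, Fin.sum_univ_add]
    have hw0ne : w0 ≠ 0 := by
      intro h
      have : g w0 = 0 := by simp only [g]; rw [h, map_zero]; simp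
      rw [hg1] at this
      exact one_ne_zero this
    have hF0 : F w0 = x := by
      simp only [F]
      rw [hg1, inv_one, one_smul, hL, hv, hv']
      ext i
      refine Fin.addCases (fun v => ?_) (fun v => ?_) i
      · rw [Fin.append_left]
      · rw [Fin.append_right]
    have hn : 0 < ‖w0‖⁻¹ := inv_pos.2 (norm_pos_iff.2 hw0ne)
    have hs : ‖w0‖⁻¹ • w0 ∈ Metric.sphere (0 : E) 1 := by
      rw [mem_sphere_zero_iff_norm, norm_smul, norm_inv, norm_norm,
        inv_mul_cancel₀ (norm_ne_zero_iff.2 hw0ne)]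
    refine ⟨⟨‖w0‖⁻¹ • w0, hs⟩, ?_⟩
    apply Subtype.ext
    change F (‖w0‖⁻¹ • w0) = x
    have hgs : g (‖w0‖⁻¹ • w0) = ‖w0‖⁻¹ * g w0 := by
      simp only [g]
      rw [map_smul]
      simp only [Prod.smul_fst, Prod.smul_snd, norm_smul, Real.norm_of_nonneg hn.le]
      ring
    have hne' : ‖w0‖⁻¹ • w0 ≠ 0 := smul_ne_zero hn.ne' hw0ne
    rw [hsplit _ hne', ← hF0, hsplit _ hw0ne, hgs, smul_smul]
    have : (‖w0‖⁻¹ * g w0)⁻¹ * ‖w0‖⁻¹ = (g w0)⁻¹ := by
      rw [mul_inv, mul_comm, ← mul_assoc, mul_inv_cancel₀ hn.ne', one_mul]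
    rw [this]
  let eqv := Equiv.ofBijective f ⟨hinj, hsurj⟩
  have : CompactSpace (Metric.sphere (0 : E) 1) := inferInstance
  exact ⟨(Continuous.homeoOfEquivCompactToT2 (f := eqv) hfc).symm⟩

/-- The join of two spheres. -/
lemma isSphere_join {n m d e : ℕ} (Δ : Finset (Finset (Fin n))) (Γ : Finset (Finset (Fin m)))
    (h1 : IsComplex Δ) (h2 : IsComplex Γ)
    (C : Cone (EuclideanSpace ℝ (Fin d)) Δ) (C' : Cone (EuclideanSpace ℝ (Fin e)) Γ) :
    IsSphere (d + e) (join Δ Γ) := by
  refine ⟨isComplex_join Δ Γ h1 h2 (h1.1 _ (C.mem 0) _ (Finset.empty_subset _))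
    (h2.1 _ (C'.mem 0) _ (Finset.empty_subset _)), join_homeo Δ Γ C C'⟩

end Pool.Agent.Y991.LF
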